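import Pool.Agent.H925.FinList

set_option autoImplicit false

/-!
# Vanishing `p`-curvature: finitely many integral Fuchsian systems over all number fields, in all ranks

Consider the systems `Y' = (b / (n x) + C / (N (x - 1))) Y`, where `b` is a diagonal matrix with at most `k`
different entries in `{0, ..., n - 1}` and `C` is a matrix of rank `r` over the ring of integers of a number field
`K`, such that the `p`-curvature is zero modulo `p` for all primes `p` which do not divide `N n`
and do not belong to a given finite set `E` of small weight `∑_{p ∈ E} log p / (p - 1) ≤ ε`. Suppose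
that the defect `classDefect n N k ε` is less than `log R`, `R` the radius of a uniformization of the
compact orbifold `(n; n₁, n₂)`; e.g. `(n, N, k) = (6, 2, 5)`: all the systems
`Y' = (b / (6 x) + C / (2 (x - 1))) Y` with at most `5` different exponents at `0`, with ANY integral matrix `C`.

The theorem says that all these systems, over ALL number fields `K` and of ALL ranks `r` together, are
up to rational gauge transformations direct sums of the systems of ONE FINITE LIST of irreducible systems with
full sets of algebraic solutions; the ranks of the irreducible systems are at most `M`, which does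
not depend on `E` (`FiniteSimpleFree`, `FiniteSimple`). In particular, for every rank there are only FINITELY
MANY up to rational gauge transformations (`FiniteFree`); only finitely many up to conjugation by constant
matrices, if the exponents at `1` and at infinity are in given intervals of length one (`FiniteBounded`; the
residues are then annihilated by the polynomials `∏ (X - j / n₁)`, `∏ (X - (j - L) / n₂)`, which do not bound
the matrix `C`). And (`FiniteFamilies`) in a family `(b, C(T))`, `C(T) ∈ M_r(ℤ[T])`, with some nonconstant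
invariant (the trace of a word in `b` and `C(T)`: an accessory parameter) the `p`-curvatures vanish for only
finitely many algebraic integers `T = ω` OF ALL DEGREES AND HEIGHTS. No bound for the height of `C` or for the
degree of `K` is assumed; the Northcott- and Bogomolov-type theorems of this page bound the height of the
parameter. The local exponents are fixed here, and the group `(n; n₁, n₂)` is compact hyperbolic.

Proof. (1) ONE finite extension `F` of `ℂ(x)` contains full sets of solutions of all the systems of
the class, over all number fields and of all ranks (`IntegralSolved`, `FreeSolved`: proved with a uniformization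
of the compact orbifold, flat bundles on the disc and Siegel's lemma for the additive group of all
power series with given local bounds). (2) Let `L` be a finite Galois extension of `ℂ(x)` which contains `F`. The
systems with full sets of solutions in `L` define representations of the finite group `Gal(L / ℂ(x))` over the field
`ℂ` of the constants of `L`; systems with conjugate representations are equivalent over `ℂ(x)`, and the group
has only finitely many representations of dimension `r` (`t_RATEQ`). (3) The dual of an irreducible system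
embeds into `F`, so its rank is at most the degree of `F` (`SolvedF.red`); a reducible system which is
solved in `F` splits, since the trace of `F` over `ℂ(x)` commutes with the derivation (`SolvedF.split`). (4) A
rational gauge transformation between systems with exponents in the same intervals of length one is constant
(`t_RIGID`, a Sylvester argument). (5) The trace of a word takes finitely many values, so `ω` is a root of one
of finitely many nonzero polynomials.
-/

namespace Pool.Agent.Results.MP_aa40d3_nt.FiniteIntegralSystems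

open NumberField Pool.Agent.Helper338PC Pool.Agent.H925

/-- (1) One finite list of irreducible systems for all ranks and all number fields, finiteness up to rational
gauge transformations in each rank for the free classes, and up to conjugation and in families for all
windows of the exponents, under an explicit inequality. (2) The same for classes with given rational exponents
at `1` and at infinity. (3) Explicit free classes. (4) Explicit classes with the hyperbolic groups `(2, 8, 8)`,
`(2, 4, 8)`, `(2, 3, 12)`, `(2, 3, 9)`. (5) The radii. -/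
theorem result :
    (∀ n N k : ℕ, 0 < n → 0 < N → ∀ ε R : ℝ, 0 < R → TriRadius n N (n.lcm N) R →
      classDefect n N k ε < Real.log R → FiniteSimpleFree n N k ε ∧ FiniteFree n N k ε ∧
        ∀ n₁ n₂ : ℕ, 0 < n₁ → 0 < n₂ →
        FiniteBounded n n₁ n₂ N k ε ∧ FiniteFamilies n n₁ n₂ N k ε) ∧
    (∀ n n₁ n₂ N k : ℕ, 0 < n → 0 < n₁ → 0 < n₂ → 0 < N → ∀ ε R : ℝ, 0 < R →
      TriRadius n n₁ n₂ R → classDefect n N k ε < Real.log R → FiniteSimple n n₁ n₂ N k ε ∧
        FiniteBounded n n₁ n₂ N k ε ∧ FiniteFamilies n n₁ n₂ N k ε) ∧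
    (∀ n N k : ℕ, ∀ ε : ℝ, ((n = 6 ∧ N = 2 ∧ k = 5 ∧ ε = 1 / 200) ∨
        (n = 4 ∧ N = 4 ∧ k = 3 ∧ ε = 1 / 20) ∨
        ((∃ a, n = 2 ^ a) ∧ N = 2 ∧ k = 6 ∧ ε = 1 / 20) ∨
        ((∃ q a, q.Prime ∧ q ≠ 2 ∧ n = q ^ (a + 1)) ∧ N = 2 ∧ k = 3 ∧ ε = 1 / 25)) →
      FiniteSimpleFree n N k ε ∧ FiniteFree n N k ε ∧ ∀ n₁ n₂ : ℕ, 0 < n₁ → 0 < n₂ →
        FiniteBounded n n₁ n₂ N k ε ∧ FiniteFamilies n n₁ n₂ N k ε) ∧
    (∀ n n₁ n₂ N k : ℕ, ∀ ε : ℝ,
      ((n = 8 ∧ n₁ = 2 ∧ n₂ = 8 ∧ N = 4 ∧ k = 5 ∧ ε = 1 / 160) ∨
        (n = 8 ∧ n₁ = 2 ∧ n₂ = 4 ∧ N = 16 ∧ k = 5 ∧ ε = 1 / 160) ∨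
        (n = 12 ∧ n₁ = 2 ∧ n₂ = 3 ∧ N = 8 ∧ k = 8 ∧ ε = 1 / 2500) ∨
        (n = 9 ∧ n₁ = 3 ∧ n₂ = 2 ∧ N = 36 ∧ k = 6 ∧ ε = 1 / 30)) →
      FiniteSimple n n₁ n₂ N k ε ∧ FiniteBounded n n₁ n₂ N k ε ∧ FiniteFamilies n n₁ n₂ N k ε) ∧
    (∀ n n₁ n₂ : ℕ, 0 < n → 0 < n₁ → 0 < n₂ → ∀ R : ℝ, R < triRadius n₁ n₂ →
      TriRadius n n₁ n₂ R) := by
  have key : ∀ {n n₁ n₂ N k : ℕ} {ε : ℝ}, 0 < n → 0 < n₁ → 0 < n₂ → 0 < N →
      IntegralSolved n n₁ n₂ N k ε → FiniteBounded n n₁ n₂ N k ε ∧ FiniteFamilies n n₁ n₂ N k ε :=
    fun hn hn₁ hn₂ hN h => ⟨finiteBounded hn hn₁ hn₂ hN h,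
      finiteFamilies hn hN (finiteBounded hn hn₁ hn₂ hN h)⟩
  have key' : ∀ {n N k : ℕ} {ε : ℝ}, 0 < n → 0 < N → FreeSolved n N k ε →
      FiniteSimpleFree n N k ε ∧ FiniteFree n N k ε ∧ ∀ n₁ n₂ : ℕ, 0 < n₁ → 0 < n₂ →
        FiniteBounded n n₁ n₂ N k ε ∧ FiniteFamilies n n₁ n₂ N k ε :=
    fun hn hN h => ⟨finiteSimpleFree h, finiteFree h, fun n₁ n₂ hn₁ hn₂ =>
      key hn hn₁ hn₂ hN (h.integralSolved n₁ n₂)⟩
  refine ⟨fun _ _ _ hn hN _ _ hR0 hR h => key' hn hN (freeSolved hn hN _ hR0 hR h),
    fun _ _ _ _ _ hn hn₁ hn₂ hN _ _ hR0 hR h =>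
      have hs := integralSolved hn hn₁ hn₂ hN _ hR0 hR h
      ⟨finiteSimple hs, key hn hn₁ hn₂ hN hs⟩, ?_, ?_,
    fun _ _ _ hn hn₁ hn₂ _ hR => tri_of_lt hn hn₁ hn₂ hR⟩
  · rintro n N k ε (⟨rfl, rfl, rfl, rfl⟩ | ⟨rfl, rfl, rfl, rfl⟩ | ⟨⟨a, rfl⟩, rfl, rfl, rfl⟩ |
      ⟨⟨q, a, hq, hq2, rfl⟩, rfl, rfl, rfl⟩)
    · exact key' (by norm_num) (by norm_num) free_six
    · exact key' (by norm_num) (by norm_num) free_four
    · exact key' (by positivity) (by norm_num) (free_two_pow a)
    · exact key' (pow_pos hq.pos _) (by norm_num) (free_odd hq hq2 a)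
  · rintro n n₁ n₂ N k ε (⟨rfl, rfl, rfl, rfl, rfl, rfl⟩ | ⟨rfl, rfl, rfl, rfl, rfl, rfl⟩ |
      ⟨rfl, rfl, rfl, rfl, rfl, rfl⟩ | ⟨rfl, rfl, rfl, rfl, rfl, rfl⟩)
    · exact ⟨finiteSimple integral_eight,
        key (by norm_num) (by norm_num) (by norm_num) (by norm_num) integral_eight⟩
    · exact ⟨finiteSimple integral_sixteen,
        key (by norm_num) (by norm_num) (by norm_num) (by norm_num) integral_sixteen⟩
    · exact ⟨finiteSimple integral_twelve,
        key (by norm_num) (by norm_num) (by norm_num) (by norm_num) integral_twelve⟩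
    · exact ⟨finiteSimple integral_nine,
        key (by norm_num) (by norm_num) (by norm_num) (by norm_num) integral_nine⟩

end Pool.Agent.Results.MP_aa40d3_nt.FiniteIntegralSystems
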