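import Pool.Agent.H446.AP4.Ops
import Pool.Agent.H446.AP4.Pairs

/-!
# The `p`-curvature of a family of differential operators at algebraic parameters of bounded height and of any degree

Let `L_ω = Δ(x, ω) ∂ ^ n + a_{n-1}(x, ω) ∂ ^ (n-1) + ⋯ + a_0(x, ω)` be a family of differential operators with
coefficients in `ℤ[x, ω]`, where `Δ` has degree at most `δ` in `ω` and `a_i` has degree at most `δ + θ (n - i)`. For
example `δ = 0` and `θ = 1 / n` if `ω` is an accessory parameter, and `δ = 1` and `θ = 0` for Heun's equation as a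
function of its moving singularity. We only assume that for the primes `p` under consideration some member of the family
in characteristic `p` has a nonzero `p`-curvature.

The parameter `ω` is an algebraic number of any degree. A prime `p` is good for `ω` if `p` does not divide the leading
coefficient of the minimal polynomial of `ω` over `ℤ` and the `p`-curvature of `L_ω` vanishes modulo `p`, that is over
the ring of the `p`-integral algebraic numbers modulo `p`. (If `p` is not ramified in `ℚ(ω)`, this is the vanishing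
modulo all prime ideals over `p`. In general it is what one has if the matrices `A_m / m!` are `p`-integral.)

We show an inequality for the sets of the good primes of an arbitrary finite set of algebraic numbers of bounded height.
It has two consequences, which have no analogue for the weaker notion of the vanishing modulo the prime ideals over `p`:

* for every `ω` of degree `N` and logarithmic height `H`, the sum of `log p / p` over the bad primes `p ≤ N` is at least
  `log N - 2 (δ + θ) H - C`;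
* for every `H` there are only finitely many algebraic numbers `ω` of height at most `H`, *of all degrees together*,
  with a given bound for the bad primes; their number is at most `C exp (2 (δ + θ) H)`, and this exponent is optimal.

Proof. Modulo `p` some coefficient `b(ω)` of an entry of the matrix of the `p`-curvature is a polynomial of degree
`q ≤ (δ + θ) (p + n - 1)` in `ω`, which is not zero modulo `p`. Let `F` be the product of the minimal polynomials of the
numbers for which `p` is good, and `D` its degree. In the Vandermonde determinant of the roots of `F` replace `v ^ j` by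
`b(v) ^ ⌊j / q⌋ v ^ (j mod q)`. This shows that `p ^ (D ^ 2 / q - 2 D)` divides the discriminant of `F`, which is bounded
by the Mahler measures.
-/

set_option autoImplicit false

namespace Pool.Agent.Results.MP_aa40d3_nt.NorthcottFiniteness

open Polynomial Finset

/-- `P` is the minimal polynomial over `ℤ` of an algebraic number `ω`, and of its conjugates. -/
def IsMinpoly (P : ℤ[X]) : Prop := Irreducible P ∧ 0 < P.natDegree ∧ 0 < P.leadingCoeff

/-- The absolute logarithmic height of the roots of `P` is at most `H`. -/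
def HeightLE (P : ℤ[X]) (H : ℝ) : Prop :=
  (P.map (Int.castRingHom ℂ)).mahlerMeasure ≤ Real.exp (P.natDegree * H)

/-- The algebraic number `z` is integral at `p`. -/
def IntegralAt (p : ℕ) (z : ℂ) : Prop := ∃ s : ℤ, ¬ (p : ℤ) ∣ s ∧ IsIntegral ℤ ((s : ℂ) * z)

/-- A family of differential operators `L_ω = Δ ∂ ^ n + ∑_{i < n} a_i ∂ ^ i` with coefficients in `ℤ[x][ω]`, where `Δ`
has degree at most `δ` and `a_i` has degree at most `δ + θ (n - i)` in `ω`. -/
structure Family (n : ℕ) (δ θ : ℝ) where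
  lead : ℤ[X][X]
  a : Fin n → ℤ[X][X]
  lead_degree_le : ∀ k, lead.coeff k ≠ 0 → (k : ℝ) ≤ δ
  degree_le : ∀ i k, (a i).coeff k ≠ 0 → (k : ℝ) ≤ δ + θ * (n - i)

/-- The value of a coefficient at `ω = c`. -/
noncomputable def coeffAt {K : Type*} [CommRing K] (c : K) (f : ℤ[X][X]) : K[X] :=
  eval₂ (mapRingHom (Int.castRingHom K)) (C c) f

/-- The matrix `Δ B` with the companion matrix `B`: `Δ y⁽ⁿ⁾ + ∑ a_i y⁽ⁱ⁾ = 0` if and only if `Y' + B Y = 0` for
`Y = (y, y', …, y⁽ⁿ⁻¹⁾)`. -/
def companion {n : ℕ} {R : Type*} [CommRing R] (Δ : R) (a : Fin n → R) : Matrix (Fin n) (Fin n) R :=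
  Matrix.of fun i j => if (i : ℕ) + 1 = n then a j else if (j : ℕ) = i + 1 then -Δ else 0

/-- The matrices `G_0 = 1` and `G_{m+1} = Δ G_m' - m Δ' G_m + A G_m`. For the connection `∇ = d/dx + Δ⁻¹ A` the columns
of `Δ ^ (-m) G_m` are the vectors `∇ ^ m e_j`, see `curv_spec`; in characteristic `p` the matrix of the `p`-curvature
is `Δ ^ (-p) G_p`. -/
noncomputable def curv {n : ℕ} {K : Type*} [CommRing K] (Δ : K[X]) (A : Matrix (Fin n) (Fin n) K[X]) :
    ℕ → Matrix (Fin n) (Fin n) K[X]
  | 0 => 1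
  | m + 1 => Matrix.of fun i j =>
      Δ * derivative (curv Δ A m i j) - m * derivative Δ * curv Δ A m i j + (A * curv Δ A m) i j

/-- The matrix `G_m` of the member `L_c`. -/
noncomputable def Family.curvAt {n : ℕ} {δ θ : ℝ} (L : Family n δ θ) {K : Type*} [CommRing K] (c : K) (m : ℕ) :
    Matrix (Fin n) (Fin n) K[X] :=
  curv (coeffAt c L.lead) (companion (coeffAt c L.lead) fun i => coeffAt c (L.a i)) m

/-- The prime `p` is good for the algebraic numbers with the minimal polynomial `P`: `p` does not divide the leading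
coefficient of `P`, and for every root `ω` of `P` the `p`-curvature of `L_ω` (times `Δ ^ p`) vanishes modulo `p`. -/
def Good {n : ℕ} {δ θ : ℝ} (L : Family n δ θ) (p : ℕ) (P : ℤ[X]) : Prop :=
  ¬ (p : ℤ) ∣ P.leadingCoeff ∧ ∀ ω : ℂ, aeval ω P = 0 → ∀ i j l, IntegralAt p ((L.curvAt ω p i j).coeff l / p)

/-- Some member of the family over a field of characteristic `p` has a nonzero `p`-curvature. -/
def Regular {n : ℕ} {δ θ : ℝ} (L : Family n δ θ) (p : ℕ) : Prop :=
  ∃ (K : Type) (_ : Field K) (_ : CharP K p) (c : K), L.curvAt c p ≠ 0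

open Classical in
/-- The number of the algebraic numbers with a minimal polynomial in `S` for which `p` is good. -/
noncomputable def goodDegree {n : ℕ} {δ θ : ℝ} (L : Family n δ θ) (S : Finset ℤ[X]) (p : ℕ) : ℕ :=
  ∑ P ∈ S.filter (Good L p), P.natDegree

open Classical in
/-- The sum of `log p / p` over the primes `y < p ≤ x` which are not good. -/
noncomputable def badSum {n : ℕ} {δ θ : ℝ} (L : Family n δ θ) (y x : ℝ) (P : ℤ[X]) : ℝ :=
  ∑ p ∈ (Icc 1 ⌊x⌋₊).filter fun p : ℕ => p.Prime ∧ y < p ∧ ¬ Good L p P, Real.log p / p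

/-- The logarithm of the absolute value of the resultant of `F` and `F'`. -/
noncomputable def logDisc (F : ℤ[X]) : ℝ :=
  Real.log |((resultant F (derivative F) F.natDegree (F.natDegree - 1) : ℤ) : ℝ)|

/-- The algebraic numbers (up to conjugation) of logarithmic height at most `H` for which the sum of `log p / p` over
the bad primes `y < p ≤ x` is at most `(1 - β) log (x / y) + M`. There is no condition on their degree. -/
def Few {n : ℕ} {δ θ : ℝ} (L : Family n δ θ) (β M y x H : ℝ) : Set ℤ[X] :=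
  {P | IsMinpoly P ∧ HeightLE P H ∧ badSum L y x P ≤ (1 - β) * Real.log (x / y) + M}

/-- The family `x ∂ - ω ^ d`. -/
noncomputable def euler (d : ℕ) : Family 1 0 d where
  lead := C X
  a := fun _ => -X ^ d
  lead_degree_le := by
    intro k hk
    rw [coeff_C] at hk
    have h1 : k = 0 := by
      by_contra h
      rw [if_neg h] at hk
      exact hk rfl
    rw [h1, Nat.cast_zero]
  degree_le := by
    intro i k hk
    rw [coeff_neg, coeff_X_pow] at hk
    have h1 : k = d := by
      by_contra h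
      rw [if_neg h, neg_zero] at hk
      exact hk rfl
    have h2 : ((i : ℕ) : ℝ) = 0 := by
      have := i.2
      have : (i : ℕ) = 0 := by omega
      rw [this, Nat.cast_zero]
    rw [h1, h2]
    simp

/-! ### The meaning of `curv` -/

/-- The columns of `Δ ^ (-m) G_m` are the vectors `∇ ^ m e_j`, in every differential field that contains `k[x]`. -/
lemma curv_spec {n : ℕ} {k K : Type*} [CommRing k] [Field K] (D : Derivation ℤ K K) (φ : k[X] →+* K)
    (hφ : ∀ f, D (φ f) = φ (derivative f)) {Δ : k[X]} (hΔ : φ Δ ≠ 0) (A : Matrix (Fin n) (Fin n) k[X])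
    (m : ℕ) (j : Fin n) :
    (fun v : Fin n → K => fun i => D (v i) + (φ Δ)⁻¹ * ∑ l, φ (A i l) * v l)^[m] (Pi.single j 1) =
      fun i => φ (curv Δ A m i j) / φ Δ ^ m := by
  induction m with
  | zero =>
    funext i
    show (Pi.single j 1 : Fin n → K) i = φ ((1 : Matrix (Fin n) (Fin n) k[X]) i j) / φ Δ ^ 0
    rw [pow_zero, div_one, Pi.single_apply, Matrix.one_apply]
    split_ifs <;> simp
  | succ m ih =>
    rw [Function.iterate_succ_apply', ih]
    funext i
    have h1 : D (φ (curv Δ A m i j) / φ Δ ^ m) =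
        (φ Δ * φ (derivative (curv Δ A m i j)) - m * φ (derivative Δ) * φ (curv Δ A m i j)) / φ Δ ^ (m + 1) := by
      rw [Derivation.leibniz_div, Derivation.leibniz_pow, hφ, hφ]
      rcases Nat.eq_zero_or_pos m with h | h
      · subst h
        simp
        field_simp
      · obtain ⟨k, rfl⟩ : ∃ k, m = k + 1 := ⟨m - 1, by omega⟩
        simp only [Nat.add_sub_cancel, smul_eq_mul, nsmul_eq_mul]
        field_simp
        ring
    have h2 : φ (curv Δ A (m + 1) i j) =
        φ Δ * φ (derivative (curv Δ A m i j)) - m * φ (derivative Δ) * φ (curv Δ A m i j) +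
          ∑ l, φ (A i l) * φ (curv Δ A m l j) := by
      show φ (Δ * derivative (curv Δ A m i j) - m * derivative Δ * curv Δ A m i j + (A * curv Δ A m) i j) = _
      rw [Matrix.mul_apply, map_add, map_sub, map_mul, map_mul, map_mul, map_natCast, map_sum]
      congr 1
      exact Finset.sum_congr rfl fun l _ => map_mul _ _ _
    show D (φ (curv Δ A m i j) / φ Δ ^ m) + (φ Δ)⁻¹ * ∑ l, φ (A i l) * (φ (curv Δ A m l j) / φ Δ ^ m) = _
    rw [h1, h2, add_div]
    congr 1
    rw [Finset.mul_sum, Finset.sum_div]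
    refine Finset.sum_congr rfl fun l _ => ?_
    field_simp
    ring

/-! ### Translation -/

lemma curv_eq {n : ℕ} {K : Type*} [CommRing K] (Δ : K[X]) (A : Matrix (Fin n) (Fin n) K[X]) (m : ℕ) :
    curv Δ A m = Pool.Agent.H446.AP4.curv (fun f : K[X] => derivative f) Δ A m := by
  induction m with
  | zero => rfl
  | succ m ih =>
    refine Matrix.ext fun i j => ?_
    show Δ * derivative (curv Δ A m i j) - m * derivative Δ * curv Δ A m i j + (A * curv Δ A m) i j = _
    rw [ih]
    rfl

lemma good_iff {n : ℕ} {δ θ : ℝ} (L : Family n δ θ) (p : ℕ) (P : ℤ[X]) :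
    Pool.Agent.H446.AP4.GoodP L.lead L.a p P ↔ Good L p P := by
  unfold Good Family.curvAt Pool.Agent.H446.AP4.GoodP
  simp only [curv_eq]
  rfl

lemma regular_iff {n : ℕ} {δ θ : ℝ} (L : Family n δ θ) (p : ℕ) :
    Pool.Agent.H446.AP4.RegP L.lead L.a p ↔ Regular L p := by
  unfold Regular Family.curvAt Pool.Agent.H446.AP4.RegP
  simp only [curv_eq]
  rfl

lemma test {n : ℕ} {δ θ : ℝ} (hδ : 0 ≤ δ) (hθ : 0 ≤ θ) (L : Family n δ θ) {p : ℕ} (hp : p.Prime)
    (h : Regular L p) : Pool.Agent.H446.AP4.Test (δ + θ) (n - 1) (Good L) p := by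
  have h1 := Pool.Agent.H446.AP4.test_of_regular hδ hθ ⟨L.lead_degree_le, L.degree_le⟩ hp ((regular_iff L p).2 h)
  have h2 : Pool.Agent.H446.AP4.GoodP L.lead L.a = Good L := by
    funext p P
    exact propext (good_iff L p P)
  rwa [h2] at h1

lemma mem_prs {y x : ℝ} (hx : 0 ≤ x) {p : ℕ} :
    p ∈ Pool.Agent.H446.AP2.prs y x ↔ p.Prime ∧ y < p ∧ (p : ℝ) ≤ x := by
  rw [Pool.Agent.H446.AP2.prs, mem_filter, Pool.Agent.H446.AP.mem_pr hx]
  tauto

lemma badSum_eq {n : ℕ} {δ θ : ℝ} (L : Family n δ θ) {y x : ℝ} (hx : 0 ≤ x) (P : ℤ[X]) :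
    Pool.Agent.H446.AP4.badS (Good L) y x P = badSum L y x P := by
  classical
  unfold Pool.Agent.H446.AP4.badS badSum
  refine Finset.sum_congr ?_ fun _ _ => rfl
  ext p
  rw [mem_filter, mem_prs hx, mem_filter, mem_Icc, Nat.le_floor_iff hx]
  constructor
  · rintro ⟨⟨h1, h2, h3⟩, h4⟩
    exact ⟨⟨h1.one_lt.le, h3⟩, h1, h2, h4⟩
  · rintro ⟨⟨-, h3⟩, h1, h2, h4⟩
    exact ⟨⟨h1, h2, h3⟩, h4⟩

lemma log_mm_le {P : ℤ[X]} (hP : IsMinpoly P) {H : ℝ} (h : HeightLE P H) :
    Real.log (Pool.Agent.H446.AP.mm P) ≤ P.natDegree * H := by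
  have h1 := Pool.Agent.H446.AP.one_le_mm hP.1.ne_zero
  have h2 := Real.log_le_log (by linarith) (show Pool.Agent.H446.AP.mm P ≤ _ from h)
  rwa [Real.log_exp] at h2

/-! ### The family `x ∂ - ω ^ d` -/

lemma euler_curv (d : ℕ) {K : Type*} [CommRing K] (ω : K) (m : ℕ) :
    (euler d).curvAt ω m = Matrix.of fun _ _ => C (∏ k ∈ range m, (-(k : K) - ω ^ d)) := by
  have hΔ : coeffAt ω (euler d).lead = X := by
    show eval₂ (mapRingHom (Int.castRingHom K)) (C ω) (C X : ℤ[X][X]) = X
    rw [eval₂_C, coe_mapRingHom, map_X]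
  have hA : (companion (coeffAt ω (euler d).lead) fun i => coeffAt ω ((euler d).a i)) =
      Matrix.of fun _ _ => C (-ω ^ d) := by
    refine Matrix.ext fun i j => ?_
    simp only [companion, Matrix.of_apply]
    have h1 : (i : ℕ) + 1 = 1 := by
      have := i.2
      omega
    rw [if_pos h1]
    show eval₂ (mapRingHom (Int.castRingHom K)) (C ω) (-X ^ d : ℤ[X][X]) = _
    rw [eval₂_neg, eval₂_X_pow, ← C_pow, C_neg]
  unfold Family.curvAt
  rw [hA, hΔ]
  set A : Matrix (Fin 1) (Fin 1) K[X] := Matrix.of fun _ _ => C (-ω ^ d) with hAdef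
  induction m with
  | zero =>
    refine Matrix.ext fun i j => ?_
    show (1 : Matrix (Fin 1) (Fin 1) K[X]) i j = _
    rw [Subsingleton.elim i j, Matrix.one_apply_eq]
    simp
  | succ m ih =>
    refine Matrix.ext fun i j => ?_
    show X * derivative (curv X A m i j) - (m : K[X]) * derivative X * curv X A m i j + (A * curv X A m) i j = _
    rw [ih, Matrix.mul_apply, hAdef]
    simp only [Matrix.of_apply, Finset.univ_unique, Finset.sum_singleton, derivative_C, derivative_X, mul_zero,
      mul_one, zero_sub]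
    rw [Finset.prod_range_succ, mul_comm _ (-(m : K) - ω ^ d), C_mul, C_sub, C_neg, C_neg, ← C_eq_natCast]
    ring

lemma prime_dvd_prod {p : ℕ} [hp : Fact p.Prime] (a b : ℤ) (hb : ¬ (p : ℤ) ∣ b) :
    (p : ℤ) ∣ ∏ k ∈ range p, (-((k : ℤ) * b) - a) := by
  have hb0 : (b : ZMod p) ≠ 0 := fun h => hb ((ZMod.intCast_zmod_eq_zero_iff_dvd _ _).1 h)
  refine dvd_trans ?_ (Finset.dvd_prod_of_mem _ (a := (-(a : ZMod p) / b).val) (mem_range.2 (ZMod.val_lt _)))
  rw [← ZMod.intCast_zmod_eq_zero_iff_dvd]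
  push_cast
  rw [ZMod.natCast_val, ZMod.cast_id]
  field_simp
  ring

lemma euler_good {d : ℕ} {a b : ℤ} {P : ℤ[X]} (hP : ∀ ω : ℂ, aeval ω P = 0 → (b : ℂ) * ω ^ d = a) {p : ℕ}
    (hp : p.Prime) (hlc : ¬ (p : ℤ) ∣ P.leadingCoeff) (hb : ¬ (p : ℤ) ∣ b) : Good (euler d) p P := by
  have hfact : Fact p.Prime := ⟨hp⟩
  refine ⟨hlc, fun ω hω i j l => ?_⟩
  rw [euler_curv, Matrix.of_apply, coeff_C]
  obtain ⟨c, hc⟩ := prime_dvd_prod a b hb
  have hp0 : (p : ℂ) ≠ 0 := by exact_mod_cast hp.ne_zero
  have hpp := Nat.prime_iff_prime_int.1 hp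
  refine ⟨b ^ p, fun h => hb (hpp.dvd_of_dvd_pow h), ?_⟩
  split_ifs with h
  · have h1 : ((b ^ p : ℤ) : ℂ) * ((∏ k ∈ range p, (-(k : ℂ) - ω ^ d)) / p) = ((c : ℤ) : ℂ) := by
      have h2 : ((b ^ p : ℤ) : ℂ) * ∏ k ∈ range p, (-(k : ℂ) - ω ^ d) =
          ((∏ k ∈ range p, (-((k : ℤ) * b) - a) : ℤ) : ℂ) := by
        push_cast
        conv_lhs => rw [← card_range p, ← Finset.prod_const, card_range, ← Finset.prod_mul_distrib]
        refine Finset.prod_congr rfl fun k _ => ?_
        rw [← hP ω hω]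
        ring
      rw [← mul_div_assoc, h2, hc]
      push_cast
      field_simp
    rw [h1]
    exact isIntegral_algebraMap (R := ℤ) (A := ℂ) (x := c)
  · rw [zero_div, mul_zero]
    exact isIntegral_zero

/-- If some coefficient has the maximal degree modulo `p`, then the family is regular. -/
lemma regular_of_degree {n : ℕ} {δ : ℕ} {θ : ℝ} (hθ : 0 < θ) (L : Family n δ θ) {p : ℕ} (hp : p.Prime)
    (hlead : (L.lead.coeff δ).map (Int.castRingHom (ZMod p)) ≠ 0) (i : Fin n) (k : ℕ)
    (hk : (k : ℝ) = δ + θ * (n - i)) (hi : ((L.a i).coeff k).map (Int.castRingHom (ZMod p)) ≠ 0) : Regular L p := by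
  have : Fact p.Prime := ⟨hp⟩
  exact (regular_iff L p).1 (Pool.Agent.H446.AP4.regular_of_top hθ ⟨L.lead_degree_le, L.degree_le⟩ hlead i k hk hi)

lemma euler_regular {d : ℕ} (hd : 1 ≤ d) {p : ℕ} (hp : p.Prime) : Regular (euler d) p := by
  have hfact : Fact p.Prime := ⟨hp⟩
  let L : Family 1 ((0 : ℕ) : ℝ) d :=
    { lead := C X
      a := fun _ => -X ^ d
      lead_degree_le := by
        rw [Nat.cast_zero]
        exact (euler d).lead_degree_le
      degree_le := by
        rw [Nat.cast_zero]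
        exact (euler d).degree_le }
  refine regular_of_degree (n := 1) (δ := 0) (by exact_mod_cast hd) L hp ?_ 0 d ?_ ?_
  · show ((C X : ℤ[X][X]).coeff 0).map _ ≠ 0
    rw [coeff_C_zero, map_X]
    exact X_ne_zero
  · simp
  · show ((-X ^ d : ℤ[X][X]).coeff d).map _ ≠ 0
    rw [coeff_neg, coeff_X_pow, if_pos rfl, Polynomial.map_neg, Polynomial.map_one]
    exact neg_ne_zero.2 one_ne_zero

/-- The polynomial `b T ^ d - a`. -/
noncomputable def bin (d : ℕ) (x : ℕ × ℕ) : ℤ[X] := C (x.2 : ℤ) * X ^ d + C (-(x.1 : ℤ))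

lemma bin_coeff {d : ℕ} (hd : 1 ≤ d) (x : ℕ × ℕ) : (bin d x).coeff d = x.2 ∧ (bin d x).coeff 0 = -(x.1 : ℤ) := by
  constructor
  · simp only [bin, coeff_add, coeff_C_mul, coeff_X_pow, if_true, mul_one, coeff_C]
    rw [if_neg (by omega), add_zero]
  · simp only [bin, coeff_add, coeff_C_mul, coeff_X_pow, coeff_C, if_true]
    rw [if_neg (by omega), mul_zero, zero_add]

lemma bin_natDegree {d : ℕ} (hd : 1 ≤ d) {x : ℕ × ℕ} (hx : 0 < x.2) : (bin d x).natDegree = d := by
  unfold bin
  have h1 : (C (x.2 : ℤ) * X ^ d).natDegree = d := natDegree_C_mul_X_pow _ _ (by exact_mod_cast hx.ne')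
  rw [natDegree_add_eq_left_of_natDegree_lt, h1]
  rw [h1, natDegree_C]
  exact hd

lemma bin_leadingCoeff {d : ℕ} (hd : 1 ≤ d) {x : ℕ × ℕ} (hx : 0 < x.2) : (bin d x).leadingCoeff = x.2 := by
  rw [leadingCoeff, bin_natDegree hd hx, (bin_coeff hd _).1]

lemma bin_isMinpoly {d : ℕ} (hd : 1 ≤ d) {x : ℕ × ℕ} (h1 : Odd x.1) (h2 : Odd x.2) (hco : Nat.Coprime x.1 x.2) :
    IsMinpoly (bin d (2 * x.1, x.2)) := by
  have hx : 0 < x.2 := h2.pos
  have hdeg : (bin d (2 * x.1, x.2)).natDegree = d := bin_natDegree hd hx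
  have hlc : (bin d (2 * x.1, x.2)).leadingCoeff = x.2 := bin_leadingCoeff hd hx
  have hprim : (bin d (2 * x.1, x.2)).IsPrimitive := by
    rw [isPrimitive_iff_isUnit_of_C_dvd]
    intro r hr
    rw [C_dvd_iff_dvd_coeff] at hr
    have e1 := hr d
    have e2 := hr 0
    rw [(bin_coeff hd _).1] at e1
    rw [(bin_coeff hd _).2, dvd_neg] at e2
    have hco2 : IsCoprime ((2 * x.1 : ℕ) : ℤ) (x.2 : ℤ) := by
      rw [Nat.isCoprime_iff_coprime]
      exact Nat.Coprime.mul_left (Nat.coprime_two_left.2 h2) hco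
    exact hco2.isUnit_of_dvd' e2 e1
  have h2p : Prime (2 : ℤ) := Int.prime_two
  refine ⟨?_, by rw [hdeg]; exact hd, by rw [hlc]; exact_mod_cast hx⟩
  refine irreducible_of_eisenstein_criterion (P := Ideal.span {(2 : ℤ)}) ?_ ?_ ?_ ?_ ?_ hprim
  · exact (Ideal.span_singleton_prime (by norm_num)).2 h2p
  · rw [hlc, Ideal.mem_span_singleton]
    intro h
    have : 2 ∣ x.2 := by exact_mod_cast h
    exact (Nat.not_even_iff_odd.2 h2) (even_iff_two_dvd.2 this)
  · intro m hm
    have hm' : m < d := by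
      have h3 : (bin d (2 * x.1, x.2)).degree = (d : ℕ) := by
        rw [degree_eq_natDegree (by
          intro h
          rw [h, natDegree_zero] at hdeg
          omega), hdeg]
      rw [h3] at hm
      exact_mod_cast hm
    rw [Ideal.mem_span_singleton]
    simp only [bin, coeff_add, coeff_C_mul, coeff_X_pow, coeff_C]
    rw [if_neg (by omega), mul_zero, zero_add]
    split_ifs
    · rw [dvd_neg]
      exact ⟨x.1, by push_cast; ring⟩
    · exact dvd_zero _
  · rw [← natDegree_pos_iff_degree_pos, hdeg]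
    exact hd
  · rw [(bin_coeff hd _).2, Ideal.span_singleton_pow, Ideal.mem_span_singleton]
    intro h
    obtain ⟨k, hk⟩ := h1
    simp only at h
    push_cast at h
    rw [hk] at h
    push_cast at h
    omega

lemma bin_mahler {d : ℕ} (hd : 1 ≤ d) {x : ℕ × ℕ} (hx : 0 < x.2) :
    ((bin d x).map (Int.castRingHom ℂ)).mahlerMeasure ≤ x.1 + x.2 := by
  refine (mahlerMeasure_le_sum_norm_coeff _).trans ?_
  have h3 : (bin d x).map (Int.castRingHom ℂ) = C ((x.2 : ℕ) : ℂ) * X ^ d + C (-((x.1 : ℕ) : ℂ)) := by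
    simp [bin]
  have hdeg : ((bin d x).map (Int.castRingHom ℂ)).natDegree = d := by
    rw [natDegree_map_eq_of_injective (RingHom.injective_int _), bin_natDegree hd hx]
  rw [Polynomial.sum_over_range _ (fun _ => norm_zero), hdeg, h3, Finset.sum_range_succ]
  have h4 : ∑ i ∈ range d, ‖(C ((x.2 : ℕ) : ℂ) * X ^ d + C (-((x.1 : ℕ) : ℂ))).coeff i‖ = x.1 := by
    rw [Finset.sum_eq_single 0]
    · simp only [coeff_add, coeff_C_mul, coeff_X_pow, coeff_C, if_true]
      rw [if_neg (by omega)]
      simp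
    · intro i hi hi0
      rw [mem_range] at hi
      simp only [coeff_add, coeff_C_mul, coeff_X_pow, coeff_C]
      rw [if_neg (by omega), if_neg hi0]
      simp
    · intro h
      exact absurd (mem_range.2 hd) h
  have h5 : ‖(C ((x.2 : ℕ) : ℂ) * X ^ d + C (-((x.1 : ℕ) : ℂ))).coeff d‖ = x.2 := by
    simp only [coeff_add, coeff_C_mul, coeff_X_pow, coeff_C, if_true]
    rw [if_neg (by omega)]
    simp
  rw [h4, h5]

lemma bin_badSum {d : ℕ} (hd : 1 ≤ d) {x : ℕ × ℕ} (hx : 0 < x.2) (y z : ℝ) :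
    badSum (euler d) y z (bin d x) ≤ Pool.Agent.H446.AP4.gl x.2 := by
  classical
  unfold badSum Pool.Agent.H446.AP4.gl
  refine Finset.sum_le_sum_of_subset_of_nonneg ?_ fun p _ _ =>
    div_nonneg (Pool.Agent.H446.AP.logp_nonneg p) (Nat.cast_nonneg p)
  intro p hp
  rw [mem_filter] at hp
  obtain ⟨-, hp, -, hbad⟩ := hp
  rw [Nat.mem_primeFactors]
  refine ⟨hp, ?_, hx.ne'⟩
  by_contra hdvd
  apply hbad
  have h1 : ¬ (p : ℤ) ∣ (x.2 : ℤ) := fun h => hdvd (Int.natCast_dvd_natCast.1 h)
  refine euler_good (a := x.1) (b := x.2) ?_ hp ?_ h1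
  · intro ω hω
    have h2 : aeval ω (bin d x) = (x.2 : ℂ) * ω ^ d - x.1 := by
      simp [bin, sub_eq_add_neg]
    rw [h2] at hω
    push_cast
    exact sub_eq_zero.1 hω
  · rw [bin_leadingCoeff hd hx]
    exact h1

/-- **Theorem.** Let `n ≥ 1`, `δ, θ ≥ 0` and `κ = δ + θ > 0`; consider the families `L_ω = Δ ∂ ^ n + ∑_{i < n} a_i ∂ ^ i`
with `Δ, a_i ∈ ℤ[x][ω]` of degrees at most `δ` and `δ + θ (n - i)` in `ω`.
(0) Let `Q` be a finite set of primes at which the family is regular, and let `S` be a nonempty finite set of minimal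
polynomials of algebraic numbers of logarithmic height at most `H`. Let `F` be their product, `D` its degree, that is
the number of these algebraic numbers with their conjugates, and `D_p` the number of those for which `p` is good. Then
`∑_{p ∈ Q} D_p ^ 2 log p / (p + n - 1) ≤ κ log |Res(F, F')| + 2 κ ∑_{p ∈ Q} D_p log p` and
`log |Res(F, F')| ≤ 2 D ^ 2 H + 2 D log D`.
(1) There is a constant `C`, independent of the family, such that for every algebraic number `ω` of degree `N` and of
logarithmic height at most `H`, and every `y ≥ 1`, the sum of `log p / p` over the bad primes `y < p ≤ N` is at least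
`log (N / y) - 2 κ H - C`, if the family is regular at the primes in `(y, N]`.
(2) For `0 < β` and `M` there is a constant `C ≥ 1`, independent of the family, such that for `y ≥ 1`, `H ≥ 0` and
`x = C y exp (2 κ H / β ^ 2)` there are at most `x` algebraic numbers (with their conjugates) of logarithmic height at
most `H`, of all degrees together, for which the sum of `log p / p` over the bad primes `y < p ≤ x` is at most
`(1 - β) log (x / y) + M`, if the family is regular at the primes in `(y, x]`.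
(3) The family is regular at `p` if `θ > 0` and, modulo `p`, `Δ` has degree `δ` and some `a_i` has degree
`δ + θ (n - i)`.
(4) For `β = 1` the exponent `2 κ` is optimal: for the family `x ∂ - ω ^ d` (`n = 1`, `δ = 0`, `θ = d`), regular at all
primes, and some constants `c > 0` and `M` there are at least `c exp (2 d H)` algebraic numbers of height at most `H` for
which the sum of `log p / p` over all bad primes is at most `M`, for all `d ≥ 1` and `H ≥ 0`. -/
theorem result :
    (∀ (n : ℕ) (δ θ κ : ℝ), 1 ≤ n → 0 ≤ δ → 0 ≤ θ → κ = δ + θ → 0 < κ →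
      (∀ (L : Family n δ θ) (Q : Finset ℕ), (∀ p ∈ Q, p.Prime ∧ Regular L p) →
        ∀ (S : Finset ℤ[X]) (H D : ℝ), S.Nonempty → 0 ≤ H → (∀ P ∈ S, IsMinpoly P ∧ HeightLE P H) →
          D = ∑ P ∈ S, (P.natDegree : ℝ) →
            ∑ p ∈ Q, (goodDegree L S p : ℝ) ^ 2 * Real.log p / (p + n - 1) ≤
              κ * logDisc (∏ P ∈ S, P) + 2 * κ * ∑ p ∈ Q, goodDegree L S p * Real.log p ∧
            logDisc (∏ P ∈ S, P) ≤ 2 * D ^ 2 * H + 2 * D * Real.log D) ∧
      (∃ C : ℝ, ∀ (L : Family n δ θ) (y H : ℝ) (P : ℤ[X]), 1 ≤ y → 0 ≤ H → IsMinpoly P → HeightLE P H →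
        (∀ p : ℕ, p.Prime → y < p → p ≤ P.natDegree → Regular L p) →
          Real.log (P.natDegree / y) - 2 * κ * H - C ≤ badSum L y P.natDegree P) ∧
      ∀ β M : ℝ, 0 < β → ∃ C : ℝ, 1 ≤ C ∧ ∀ (L : Family n δ θ) (y H x : ℝ), 1 ≤ y → 0 ≤ H →
        x = C * y * Real.exp (2 * κ * H / β ^ 2) →
          (∀ p : ℕ, p.Prime → y < p → (p : ℝ) ≤ x → Regular L p) →
            (Few L β M y x H).Finite ∧ ∑ᶠ P ∈ Few L β M y x H, (P.natDegree : ℝ) ≤ x) ∧
    (∀ (n δ : ℕ) (θ : ℝ), 0 < θ → ∀ (L : Family n δ θ) (p : ℕ), p.Prime →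
      (L.lead.coeff δ).map (Int.castRingHom (ZMod p)) ≠ 0 →
        (∃ (i : Fin n) (k : ℕ), (k : ℝ) = δ + θ * (n - i) ∧ ((L.a i).coeff k).map (Int.castRingHom (ZMod p)) ≠ 0) →
          Regular L p) ∧
    ∃ c M : ℝ, 0 < c ∧ ∀ d : ℕ, 1 ≤ d → (∀ p : ℕ, p.Prime → Regular (euler d) p) ∧
      ∀ H : ℝ, 0 ≤ H → ∃ S : Finset ℤ[X], (∀ P ∈ S, IsMinpoly P ∧ HeightLE P H ∧
        ∀ y x : ℝ, badSum (euler d) y x P ≤ M) ∧ c * Real.exp (2 * d * H) ≤ ∑ P ∈ S, (P.natDegree : ℝ) := by
  classical
  refine ⟨fun n δ θ κ hn hδ hθ hκ hκ0 => ?_,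
    fun n δ θ hθ L p hp h1 ⟨i, k, hk, hi⟩ => regular_of_degree hθ L hp h1 i k hk hi, ?_⟩
  · subst hκ
    have hW : (0 : ℝ) ≤ n - 1 := by
      have : (1 : ℝ) ≤ n := by exact_mod_cast hn
      linarith
    refine ⟨?_, ?_, ?_⟩
    · intro L Q hQ S H D hS hH hSH hD
      have h0 := Pool.Agent.H446.AP4.log_rd_pd_le hS hH
        (fun P hP => ⟨(hSH P hP).1, log_mm_le (hSH P hP).1 (hSH P hP).2⟩) hD
      have h1 := Pool.Agent.H446.AP4.core_disc hκ0 hW Q (fun p hp => test hδ hθ L (hQ p hp).1 (hQ p hp).2)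
        fun P hP => (hSH P hP).1
      have h2 : ∀ p, Pool.Agent.H446.AP4.dg (Good L) S p = goodDegree L S p := fun p => rfl
      simp only [h2] at h1
      have h3 : ∑ p ∈ Q, (goodDegree L S p : ℝ) ^ 2 * Real.log p / (p + n - 1) =
          ∑ p ∈ Q, Real.log p * ((goodDegree L S p : ℝ) ^ 2 / (p + (n - 1))) := by
        refine Finset.sum_congr rfl fun p _ => ?_
        rw [add_sub_assoc]
        ring
      have h4 : ∑ p ∈ Q, (goodDegree L S p : ℝ) * Real.log p = ∑ p ∈ Q, Real.log p * goodDegree L S p :=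
        Finset.sum_congr rfl fun p _ => mul_comm _ _
      rw [h3, h4]
      refine ⟨h1, h0.trans (le_of_eq ?_)⟩
      ring
    · obtain ⟨C, -, hC⟩ := Pool.Agent.H446.AP4.single hκ0 hW
      refine ⟨C, fun L y H P hy hH hP hPH hreg => ?_⟩
      have h1 := hC (Good L) y H hy hH P hP (log_mm_le hP hPH) fun p hp => by
        rw [mem_prs (Nat.cast_nonneg _)] at hp
        exact test hδ hθ L hp.1 (hreg p hp.1 hp.2.1 (by exact_mod_cast hp.2.2))
      rwa [badSum_eq L (Nat.cast_nonneg _)] at h1
    · intro β M hβ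
      obtain ⟨C, hC1, hC⟩ := Pool.Agent.H446.AP4.count hκ0 hW hβ M
      refine ⟨C, hC1, fun L y H x hy hH hx hreg => ?_⟩
      have hx0 : 0 ≤ x := by
        rw [hx]
        positivity
      have h1 : ∀ S : Finset ℤ[X], (∀ P ∈ S, P ∈ Few L β M y x H) → ∑ P ∈ S, (P.natDegree : ℝ) ≤ x := by
        intro S hS
        refine hC (Good L) y H x hy hH hx (fun p hp => ?_) S fun P hP => ?_
        · rw [mem_prs hx0] at hp
          exact test hδ hθ L hp.1 (hreg p hp.1 hp.2.1 hp.2.2)
        · obtain ⟨h1, h2, h3⟩ := hS P hP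
          exact ⟨h1, log_mm_le h1 h2, by rwa [badSum_eq L hx0]⟩
      have hfin : (Few L β M y x H).Finite := by
        by_contra hinf
        obtain ⟨S, hS, hSc⟩ := Set.Infinite.exists_subset_card_eq hinf (⌊x⌋₊ + 1)
        have h2 := h1 S fun P hP => hS hP
        have h3 : (S.card : ℝ) ≤ ∑ P ∈ S, (P.natDegree : ℝ) := by
          calc (S.card : ℝ) = ∑ _P ∈ S, (1 : ℝ) := by simp
            _ ≤ _ := Finset.sum_le_sum fun P hP => by
                have := (hS hP).1.2.1
                exact_mod_cast this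
        rw [hSc] at h3
        push_cast at h3
        have h4 := Nat.lt_floor_add_one x
        linarith
      refine ⟨hfin, ?_⟩
      rw [finsum_mem_eq_finite_toFinset_sum _ hfin]
      exact h1 _ fun P hP => (Set.Finite.mem_toFinset hfin).1 hP
  · obtain ⟨M, hM0, hM⟩ := Pool.Agent.H446.AP4.pairs
    refine ⟨1 / 3456, M, by norm_num, fun d hd => ⟨fun p hp => euler_regular hd hp, fun H hH => ?_⟩⟩
    obtain ⟨Y, hY⟩ : ∃ Y, Y = Real.exp (d * H) := ⟨_, rfl⟩
    have hYY : Real.exp (2 * d * H) = Y ^ 2 := by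
      rw [hY, ← Real.exp_nat_mul]
      congr 1
      push_cast
      ring
    have hY1 : 1 ≤ Y := by
      rw [hY]
      exact Real.one_le_exp (by positivity)
    rw [hYY]
    rcases lt_or_ge Y 6 with hY6 | hY6
    · refine ⟨{X - C 1}, ?_, ?_⟩
      · intro P hP
        rw [mem_singleton] at hP
        subst hP
        have e1 : (X - C (1 : ℤ)).natDegree = 1 := natDegree_X_sub_C 1
        refine ⟨⟨irreducible_X_sub_C 1, by rw [e1]; exact one_pos, by rw [leadingCoeff_X_sub_C]; exact one_pos⟩,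
          ?_, fun y x => ?_⟩
        · show ((X - C (1 : ℤ)).map _).mahlerMeasure ≤ _
          rw [e1, Polynomial.map_sub, map_X, map_C]
          rw [show (Int.castRingHom ℂ) 1 = 1 from map_one _, mahlerMeasure_X_sub_C, norm_one, max_self]
          exact Real.one_le_exp (by positivity)
        · unfold badSum
          rw [Finset.filter_false_of_mem, Finset.sum_empty]
          · exact hM0
          · rintro p - ⟨hp, -, hbad⟩
            have h1 : ¬ (p : ℤ) ∣ 1 := by
              rw [← Nat.cast_one, Int.natCast_dvd_natCast, Nat.dvd_one]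
              exact hp.ne_one
            refine hbad (euler_good (a := 1) (b := 1) ?_ hp ?_ h1)
            · intro ω hω
              have h2 : aeval ω (X - C (1 : ℤ)) = ω - 1 := by simp
              rw [h2] at hω
              rw [sub_eq_zero.1 hω]
              simp
            · rw [leadingCoeff_X_sub_C]
              exact h1
      · rw [sum_singleton, natDegree_X_sub_C, Nat.cast_one]
        nlinarith
    · obtain ⟨N, hN⟩ : ∃ N, N = ⌊Y / 6⌋₊ := ⟨_, rfl⟩
      have hN1 : 1 ≤ N := by
        rw [hN]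
        exact Nat.floor_pos.2 (by linarith)
      have hNY : 6 * (N : ℝ) ≤ Y := by
        have := Nat.floor_le (by linarith : 0 ≤ Y / 6)
        rw [← hN] at this
        linarith
      have hNY2 : Y / 12 ≤ N := by
        have h1 := Nat.lt_floor_add_one (Y / 6)
        rw [← hN] at h1
        have h2 : (1 : ℝ) ≤ N := by exact_mod_cast hN1
        linarith
      have h1 := hM N hN1
      set A := ((Icc 1 (2 * N)) ×ˢ (Icc 1 (2 * N))).filter fun x : ℕ × ℕ =>
        Nat.Coprime x.1 x.2 ∧ Odd x.1 ∧ Odd x.2 ∧ Pool.Agent.H446.AP4.gl x.2 ≤ M with hA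
      have hinj : Function.Injective fun u : ℕ × ℕ => bin d (2 * u.1, u.2) := by
        intro u v h
        have h2 := congrArg (fun q => q.coeff d) h
        have h3 := congrArg (fun q => q.coeff 0) h
        simp only [(bin_coeff hd _).1, (bin_coeff hd _).2] at h2 h3
        refine Prod.ext ?_ ?_
        · push_cast at h3
          omega
        · exact_mod_cast h2
      refine ⟨A.image fun u : ℕ × ℕ => bin d (2 * u.1, u.2), ?_, ?_⟩
      · intro P hP
        rw [Finset.mem_image] at hP
        obtain ⟨u, hu, rfl⟩ := hP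
        rw [hA, mem_filter, mem_product, mem_Icc, mem_Icc] at hu
        obtain ⟨⟨⟨u1, u2⟩, u3, u4⟩, u5, u6, u7, u8⟩ := hu
        have e1 : (bin d (2 * u.1, u.2)).natDegree = d := bin_natDegree hd u3
        refine ⟨bin_isMinpoly hd u6 u7 u5, ?_, fun y x => (bin_badSum (x := (2 * u.1, u.2)) hd u3 y x).trans u8⟩
        show ((bin d (2 * u.1, u.2)).map _).mahlerMeasure ≤ _
        rw [e1, ← hY]
        refine (bin_mahler hd (x := (2 * u.1, u.2)) u3).trans ?_
        have v1 : (u.1 : ℝ) ≤ 2 * N := by exact_mod_cast u2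
        have v2 : (u.2 : ℝ) ≤ 2 * N := by exact_mod_cast u4
        push_cast
        linarith
      · have h2 : (A.card : ℝ) ≤ ∑ P ∈ A.image fun u : ℕ × ℕ => bin d (2 * u.1, u.2), (P.natDegree : ℝ) := by
          rw [Finset.sum_image fun u _ v _ h => hinj h]
          calc (A.card : ℝ) = ∑ _u ∈ A, (1 : ℝ) := by simp
            _ ≤ _ := Finset.sum_le_sum fun u hu => by
                rw [hA, mem_filter, mem_product, mem_Icc, mem_Icc] at hu
                have e1 : (bin d (2 * u.1, u.2)).natDegree = d := bin_natDegree hd hu.1.2.1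
                rw [e1]
                exact_mod_cast hd
        have h3 : (Y / 12) ^ 2 ≤ (N : ℝ) ^ 2 := pow_le_pow_left₀ (by linarith) hNY2 2
        nlinarith

end Pool.Agent.Results.MP_aa40d3_nt.NorthcottFiniteness
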