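import Pool.Agent.H446.AP5.Fin5

/-!
# Operators with nilpotent `p`-curvatures and with algebraic coefficients of bounded height and of any degree

Consider all the differential operators `L = Δ ∂ ^ n + a_{n-1} ∂ ^ (n-1) + ⋯ + a_0` with a given leading coefficient
`Δ ∈ ℤ[x]` and with polynomials `a_j` of degree at most `e` whose coefficients are algebraic numbers, of any degree. More
generally, let `L_ω = Δ ∂ ^ n + ∑_j (b_j + ∑_k ω_{jk} g_{jk}) ∂ ^ j` with given `b_j, g_{jk} ∈ ℤ[x]` and with `m`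
parameters `ω_{jk}`. A prime `p` is good for `ω` if `Δ` is not zero modulo `p`, the `g_{jk}` are linearly independent
modulo `p` for every `j`, the `ω_{jk}` are integral at `p`, and the `p`-curvature of `L_ω` is nilpotent modulo `p` (for
example if it vanishes modulo `p`).

Let `H` be a bound for the logarithmic heights of the `ω_{jk}`. We show:

* if `D` is the least degree such that the monomials in the `ω_{jk}` of degree at most `D`, with the weights `n - j`, span
  the field `ℚ(ω)`, then the sum of `log p / p` over the bad primes `p ≤ D` is at least `log D - 2 n m H - C`, where `C`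
  depends only on `n` and `m`; and `[ℚ(ω) : ℚ] ≤ (D + 1) ^ m`;
* hence for every `H` there are only finitely many operators with algebraic coefficients of height at most `H`, of all
  degrees together, with a given bound for the bad primes, and their degrees are bounded explicitly.

Proof. Let `K = ℚ(ω)`, `N = [K : ℚ]`. Choose monomials `M_1, …, M_N` of weighted degree at most `D` which are a basis of
`K`. The square of the determinant `det (σ (M_i))` is a rational number which is not zero, with a denominator and an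
absolute value that are bounded by the heights. For a good prime `p` the coefficients of the characteristic polynomial of
the `p`-curvature give polynomials `F_{jk}` with `p ∣ F_{jk}(ω)` and the leading form `ω_{jk} ^ p`. So every monomial is
an integral combination of elements `p ^ a ω ^ b` of the same or a smaller degree, where `a ≥ deg / (n p) - m`, and only
`r_j` of these are linearly independent in degree at most `j`, where `r_j` is the dimension of the span of the monomials
of degree at most `j`. So the determinant is divisible by `p ^ (∑_{j < D} (N - r_j) / (n p) - m N)`. Finally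
`r_j + r_{D-1-j} ≤ N` (consider a linear form that vanishes on the span in degree `D - 1`), so
`∑_{j < D} (N - r_j) ≥ N D / 2`.
-/

set_option autoImplicit false

namespace Pool.Agent.Results.MP_aa40d3_nt.SeveralParameters

open Polynomial Finset

/-- The absolute logarithmic height of the algebraic number `z` is at most `H`: for the minimal polynomial `P` of `z`
over `ℤ`, the Mahler measure is at most `exp (deg P * H)`. -/
def HeightLE (z : ℂ) (H : ℝ) : Prop := ∃ P : ℤ[X], Irreducible P ∧ 0 < P.natDegree ∧ 0 < P.leadingCoeff ∧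
  aeval z P = 0 ∧ (P.map (Int.castRingHom ℂ)).mahlerMeasure ≤ Real.exp (P.natDegree * H)

/-- The algebraic number `z` is integral at `p`. -/
def IntegralAt (p : ℕ) (z : ℂ) : Prop := ∃ s : ℤ, ¬ (p : ℤ) ∣ s ∧ IsIntegral ℤ ((s : ℂ) * z)

/-- A family of differential operators `L_ω = Δ ∂ ^ n + ∑_{j < n} (b_j + ∑_k ω_{jk} g_{jk}) ∂ ^ j`. -/
structure Family (n : ℕ) (κ : Fin n → ℕ) where
  lead : ℤ[X]
  base : Fin n → ℤ[X]
  dir : (j : Fin n) → Fin (κ j) → ℤ[X]

/-- The parameters. -/
abbrev Par {n : ℕ} (κ : Fin n → ℕ) : Type := Σ j, Fin (κ j)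

/-- The matrix `Δ B` with the companion matrix `B`: `Δ y⁽ⁿ⁾ + ∑ a_i y⁽ⁱ⁾ = 0` if and only if `Y' + B Y = 0` for
`Y = (y, y', …, y⁽ⁿ⁻¹⁾)`. -/
def companion {n : ℕ} {R : Type*} [CommRing R] (Δ : R) (a : Fin n → R) : Matrix (Fin n) (Fin n) R :=
  Matrix.of fun i j => if (i : ℕ) + 1 = n then a j else if (j : ℕ) = i + 1 then -Δ else 0

/-- The matrices `G_0 = 1` and `G_{m+1} = Δ G_m' - m Δ' G_m + A G_m`. For the connection `∇ = d/dx + Δ⁻¹ A` the columns
of `Δ ^ (-m) G_m` are the vectors `∇ ^ m e_j`, see `curv_spec`; in characteristic `p` the matrix of the `p`-curvature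
is `Δ ^ (-p) G_p`. -/
noncomputable def curv {n : ℕ} {K : Type*} [CommRing K] (Δ : K[X]) (A : Matrix (Fin n) (Fin n) K[X]) :
    ℕ → Matrix (Fin n) (Fin n) K[X]
  | 0 => 1
  | m + 1 => Matrix.of fun i j =>
      Δ * derivative (curv Δ A m i j) - m * derivative Δ * curv Δ A m i j + (A * curv Δ A m) i j

/-- The matrix `G_m` of the member `L_ω`. -/
noncomputable def Family.curvAt {n : ℕ} {κ : Fin n → ℕ} (L : Family n κ) (ω : Par κ → ℂ) (m : ℕ) :
    Matrix (Fin n) (Fin n) ℂ[X] :=
  curv (L.lead.map (Int.castRingHom ℂ)) (companion (L.lead.map (Int.castRingHom ℂ)) fun j =>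
    (L.base j).map (Int.castRingHom ℂ) + ∑ k, C (ω ⟨j, k⟩) * (L.dir j k).map (Int.castRingHom ℂ)) m

/-- Modulo `p` the leading coefficient is not zero and the `g_{jk}` are linearly independent for every `j`. -/
def Family.Regular {n : ℕ} {κ : Fin n → ℕ} (L : Family n κ) (p : ℕ) : Prop :=
  L.lead.map (Int.castRingHom (ZMod p)) ≠ 0 ∧
    ∀ j, LinearIndependent (ZMod p) fun k => (L.dir j k).map (Int.castRingHom (ZMod p))

/-- The `p`-curvature of `L_ω` vanishes modulo `p`. -/
def Vanishing {n : ℕ} {κ : Fin n → ℕ} (L : Family n κ) (p : ℕ) (ω : Par κ → ℂ) : Prop :=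
  ∀ i j l, IntegralAt p ((L.curvAt ω p i j).coeff l / p)

/-- The `p`-curvature of `L_ω` is nilpotent modulo `p`: modulo `p` the characteristic polynomial of `G_p` is `T ^ n`. -/
def Nilpotent {n : ℕ} {κ : Fin n → ℕ} (L : Family n κ) (p : ℕ) (ω : Par κ → ℂ) : Prop :=
  ∀ (j : Fin n) (l : ℕ), IntegralAt p (((L.curvAt ω p).charpoly.coeff j).coeff l / p)

/-- The prime `p` is good for `ω`. -/
def Good {n : ℕ} {κ : Fin n → ℕ} (L : Family n κ) (p : ℕ) (ω : Par κ → ℂ) : Prop :=
  L.Regular p ∧ (∀ s, IntegralAt p (ω s)) ∧ Nilpotent L p ω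

open Classical in
/-- The sum of `log p / p` over the primes `y < p ≤ x` which are not good. -/
noncomputable def badSum {n : ℕ} {κ : Fin n → ℕ} (L : Family n κ) (y x : ℝ) (ω : Par κ → ℂ) : ℝ :=
  ∑ p ∈ (Icc 1 ⌊x⌋₊).filter fun p : ℕ => p.Prime ∧ y < p ∧ ¬ Good L p ω, Real.log p / p

/-- The degree of the field `ℚ(ω)`. -/
noncomputable def fieldDegree {n : ℕ} {κ : Fin n → ℕ} (ω : Par κ → ℂ) : ℕ :=
  Module.finrank ℚ (IntermediateField.adjoin ℚ (Set.range ω))

/-- The least `D` such that the monomials in the `ω_{jk}` of weighted degree at most `D`, where `ω_{jk}` has the weight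
`n - j`, span the field `ℚ(ω)` over `ℚ`. -/
noncomputable def spanDegree {n : ℕ} {κ : Fin n → ℕ} (ω : Par κ → ℂ) : ℕ :=
  sInf {D | ∀ z ∈ IntermediateField.adjoin ℚ (Set.range ω), z ∈ Submodule.span ℚ
    {y : ℂ | ∃ a : Par κ →₀ ℕ, ∑ s, a s * (n - s.1) ≤ D ∧ y = ∏ s, ω s ^ a s}}

/-- The `ω` with coordinates of logarithmic height at most `H` for which the sum of `log p / p` over the bad primes
`y < p ≤ x` is at most `(1 - β) log (x / y) + M`. There is no condition on their degree. -/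
def Few {n : ℕ} {κ : Fin n → ℕ} (L : Family n κ) (β M y x H : ℝ) : Set (Par κ → ℂ) :=
  {ω | (∀ s, HeightLE (ω s) H) ∧ badSum L y x ω ≤ (1 - β) * Real.log (x / y) + M}

/-- The family of all the operators `Δ ∂ ^ n + ∑_{j < n} (∑_{k ≤ e} ω_{jk} x ^ k) ∂ ^ j`. -/
noncomputable def full (n e : ℕ) (Δ : ℤ[X]) : Family n fun _ => e + 1 where
  lead := Δ
  base := 0
  dir := fun _ k => X ^ (k : ℕ)

/-! ### The meaning of `curv` -/

/-- The columns of `Δ ^ (-m) G_m` are the vectors `∇ ^ m e_j`, in every differential field that contains `k[x]`. -/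
lemma curv_spec {n : ℕ} {k K : Type*} [CommRing k] [Field K] (D : Derivation ℤ K K) (φ : k[X] →+* K)
    (hφ : ∀ f, D (φ f) = φ (derivative f)) {Δ : k[X]} (hΔ : φ Δ ≠ 0) (A : Matrix (Fin n) (Fin n) k[X])
    (m : ℕ) (j : Fin n) :
    (fun v : Fin n → K => fun i => D (v i) + (φ Δ)⁻¹ * ∑ l, φ (A i l) * v l)^[m] (Pi.single j 1) =
      fun i => φ (curv Δ A m i j) / φ Δ ^ m := by
  induction m with
  | zero =>
    funext i
    show (Pi.single j 1 : Fin n → K) i = φ ((1 : Matrix (Fin n) (Fin n) k[X]) i j) / φ Δ ^ 0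
    rw [pow_zero, div_one, Pi.single_apply, Matrix.one_apply]
    split_ifs <;> simp
  | succ m ih =>
    rw [Function.iterate_succ_apply', ih]
    funext i
    have h1 : D (φ (curv Δ A m i j) / φ Δ ^ m) =
        (φ Δ * φ (derivative (curv Δ A m i j)) - m * φ (derivative Δ) * φ (curv Δ A m i j)) / φ Δ ^ (m + 1) := by
      rw [Derivation.leibniz_div, Derivation.leibniz_pow, hφ, hφ]
      rcases Nat.eq_zero_or_pos m with h | h
      · subst h
        simp
        field_simp
      · obtain ⟨k, rfl⟩ : ∃ k, m = k + 1 := ⟨m - 1, by omega⟩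
        simp only [Nat.add_sub_cancel, smul_eq_mul, nsmul_eq_mul]
        field_simp
        ring
    have h2 : φ (curv Δ A (m + 1) i j) =
        φ Δ * φ (derivative (curv Δ A m i j)) - m * φ (derivative Δ) * φ (curv Δ A m i j) +
          ∑ l, φ (A i l) * φ (curv Δ A m l j) := by
      show φ (Δ * derivative (curv Δ A m i j) - m * derivative Δ * curv Δ A m i j + (A * curv Δ A m) i j) = _
      rw [Matrix.mul_apply, map_add, map_sub, map_mul, map_mul, map_mul, map_natCast, map_sum]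
      congr 1
      exact Finset.sum_congr rfl fun l _ => map_mul _ _ _
    show D (φ (curv Δ A m i j) / φ Δ ^ m) + (φ Δ)⁻¹ * ∑ l, φ (A i l) * (φ (curv Δ A m l j) / φ Δ ^ m) = _
    rw [h1, h2, add_div]
    congr 1
    rw [Finset.mul_sum, Finset.sum_div]
    refine Finset.sum_congr rfl fun l _ => ?_
    field_simp
    ring

/-! ### Translation -/

lemma curv_eq {n : ℕ} {K : Type*} [CommRing K] (Δ : K[X]) (A : Matrix (Fin n) (Fin n) K[X]) (m : ℕ) :
    curv Δ A m = Pool.Agent.H446.AP4.curv (fun f : K[X] => derivative f) Δ A m := by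
  induction m with
  | zero => rfl
  | succ m ih =>
    refine Matrix.ext fun i j => ?_
    show Δ * derivative (curv Δ A m i j) - m * derivative Δ * curv Δ A m i j + (A * curv Δ A m) i j = _
    rw [ih]
    rfl

lemma curvAt_eq {n : ℕ} {κ : Fin n → ℕ} (L : Family n κ) (ω : Par κ → ℂ) (p : ℕ) :
    L.curvAt ω p = Pool.Agent.H446.AP5.cv p L.lead L.base L.dir ω := by
  unfold Family.curvAt Pool.Agent.H446.AP5.cv
  rw [curv_eq]
  rfl

lemma mem_iff {p : ℕ} [hp : Fact p.Prime] (z : ℂ) :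
    (∃ y ∈ Pool.Agent.H446.AP4.pInt p, z = p * y) ↔ IntegralAt p (z / p) := by
  have hp0 : (p : ℂ) ≠ 0 := by exact_mod_cast hp.out.ne_zero
  constructor
  · rintro ⟨y, hy, rfl⟩
    rw [mul_div_cancel_left₀ _ hp0]
    exact hy
  · intro h
    exact ⟨z / p, h, by rw [mul_div_cancel₀ _ hp0]⟩

lemma test {n : ℕ} {κ : Fin n → ℕ} (L : Family n κ) {p : ℕ} (hp : p.Prime) {ω : Par κ → ℂ} (h : Good L p ω) :
    Pool.Agent.H446.AP5.TestC Pool.Agent.H446.AP5.dw p p ω := by
  have : Fact p.Prime := ⟨hp⟩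
  obtain ⟨⟨h1, h2⟩, h3, h4⟩ := h
  refine Pool.Agent.H446.AP5.test_of_nilp (b := L.base) (g := L.dir) h1 h2 (fun s => h3 s) fun j l => ?_
  rw [mem_iff, ← curvAt_eq]
  exact h4 j l

lemma mem_prs {y x : ℝ} (hx : 0 ≤ x) {p : ℕ} :
    p ∈ Pool.Agent.H446.AP2.prs y x ↔ p.Prime ∧ y < p ∧ (p : ℝ) ≤ x := by
  rw [Pool.Agent.H446.AP2.prs, mem_filter, Pool.Agent.H446.AP.mem_pr hx]
  tauto

lemma badSum_eq {n : ℕ} {κ : Fin n → ℕ} (L : Family n κ) {y x : ℝ} (hx : 0 ≤ x) (ω : Par κ → ℂ) :
    Pool.Agent.H446.AP5.bad5 (fun p => Good L p ω) y x = badSum L y x ω := by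
  classical
  unfold Pool.Agent.H446.AP5.bad5 badSum
  refine Finset.sum_congr ?_ fun _ _ => rfl
  ext p
  rw [mem_filter, mem_prs hx, mem_filter, mem_Icc, Nat.le_floor_iff hx]
  constructor
  · rintro ⟨⟨h1, h2, h3⟩, h4⟩
    exact ⟨⟨h1.one_lt.le, h3⟩, h1, h2, h4⟩
  · rintro ⟨⟨-, h3⟩, h1, h2, h4⟩
    exact ⟨⟨h1, h2, h3⟩, h4⟩

lemma height_iff {z : ℂ} {H : ℝ} : HeightLE z H ↔ ∃ P : ℤ[X], Pool.Agent.H446.AP.Orb P ∧
    Real.log (Pool.Agent.H446.AP.mm P) ≤ P.natDegree * H ∧ aeval z P = 0 := by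
  constructor
  · rintro ⟨P, h1, h2, h3, h4, h5⟩
    refine ⟨P, ⟨h1, h2, h3⟩, ?_, h4⟩
    have h6 := Pool.Agent.H446.AP.one_le_mm h1.ne_zero
    have h7 := Real.log_le_log (by linarith) (show Pool.Agent.H446.AP.mm P ≤ _ from h5)
    rwa [Real.log_exp] at h7
  · rintro ⟨P, ⟨h1, h2, h3⟩, h4, h5⟩
    refine ⟨P, h1, h2, h3, h5, ?_⟩
    have h6 := Pool.Agent.H446.AP.one_le_mm h1.ne_zero
    have h7 := Real.exp_le_exp.2 h4
    rwa [Real.exp_log (by linarith)] at h7

lemma card_par {n : ℕ} (κ : Fin n → ℕ) : Fintype.card (Par κ) = ∑ j, κ j := by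
  rw [Fintype.card_sigma]
  exact Finset.sum_congr rfl fun j _ => Fintype.card_fin _

/-- **Theorem.** Consider the families `L_ω = Δ ∂ ^ n + ∑_{j < n} (b_j + ∑_{k < κ_j} ω_{jk} g_{jk}) ∂ ^ j` with `n ≥ 1`,
with `Δ, b_j, g_{jk} ∈ ℤ[x]`, and with `m = ∑ κ_j` parameters. Suppose that the coordinates of `ω` are algebraic numbers
of absolute logarithmic height at most `H`.
(1) There is a constant `C` that depends only on `n` and `κ` such that for `1 ≤ y ≤ x ≤ D` the sum of `log p / p` over the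
bad primes `y < p ≤ x` is at least `log (x / y) - 2 n m H - C`. Here `D` is the least integer such that the monomials in
the `ω_{jk}` of weighted degree at most `D` span `ℚ(ω)`. One has `[ℚ(ω) : ℚ] ≤ (D + 1) ^ m`.
(2) Let `m ≥ 1`. For `0 < β` and `M` there is a constant `C ≥ 1` that depends only on `n`, `κ`, `β` and `M` such that for
`y ≥ 1`, `H ≥ 0` and `x = C y exp (2 n m H / β)` there are only finitely many `ω` with coordinates of height at most `H`,
of all degrees together, for which the sum of `log p / p` over the bad primes `y < p ≤ x` is at most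
`(1 - β) log (x / y) + M`; they have the degree `[ℚ(ω) : ℚ] < (x + 1) ^ m`.
(3) The family of all the operators `Δ ∂ ^ n + ∑ a_j ∂ ^ j` with `deg a_j ≤ e` is regular at all primes which do not
divide `Δ`.
(4) If the `p`-curvature of `L_ω` vanishes modulo `p`, then it is nilpotent modulo `p`. -/
theorem result :
    (∀ (n : ℕ) (κ : Fin n → ℕ), 1 ≤ n → ∃ C : ℝ, ∀ (L : Family n κ) (ω : Par κ → ℂ) (y x H : ℝ),
      1 ≤ y → y ≤ x → 0 ≤ H → (∀ s, HeightLE (ω s) H) → x ≤ spanDegree ω →
        Real.log (x / y) - 2 * n * (∑ j, κ j : ℕ) * H - C ≤ badSum L y x ω) ∧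
    (∀ (n : ℕ) (κ : Fin n → ℕ) (ω : Par κ → ℂ), (∀ s, IsAlgebraic ℚ (ω s)) →
      fieldDegree ω ≤ (spanDegree ω + 1) ^ ∑ j, κ j) ∧
    (∀ (n : ℕ) (κ : Fin n → ℕ), 0 < ∑ j, κ j → ∀ β M : ℝ, 0 < β → ∃ C : ℝ, 1 ≤ C ∧
      ∀ (L : Family n κ) (y H x : ℝ), 1 ≤ y → 0 ≤ H → x = C * y * Real.exp (2 * n * (∑ j, κ j : ℕ) * H / β) →
        (Few L β M y x H).Finite ∧ ∀ ω ∈ Few L β M y x H, (fieldDegree ω : ℝ) < (x + 1) ^ ∑ j, κ j) ∧
    (∀ (n e : ℕ) (Δ : ℤ[X]) (p : ℕ), p.Prime → Δ.map (Int.castRingHom (ZMod p)) ≠ 0 → (full n e Δ).Regular p) ∧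
    ∀ (n : ℕ) (κ : Fin n → ℕ) (L : Family n κ) (p : ℕ) (ω : Par κ → ℂ), p.Prime → Vanishing L p ω →
      Nilpotent L p ω := by
  classical
  have hdw : ∀ {n : ℕ} {κ : Fin n → ℕ}, ∀ s : Par κ, 1 ≤ Pool.Agent.H446.AP5.dw s ∧ Pool.Agent.H446.AP5.dw s ≤ n := by
    intro n κ s
    have := s.1.2
    unfold Pool.Agent.H446.AP5.dw
    omega
  have hsp : ∀ {n : ℕ} {κ : Fin n → ℕ} (ω : Par κ → ℂ),
      Pool.Agent.H446.AP5.sdeg Pool.Agent.H446.AP5.dw ω = spanDegree ω := fun ω => rfl
  refine ⟨fun n κ hn => ?_, fun n κ ω hω => ?_, fun n κ hκ β M hβ => ?_, fun n e Δ p hp hΔ => ?_,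
    fun n κ L p ω hp h => ?_⟩
  · obtain ⟨C, -, hC⟩ := Pool.Agent.H446.AP5.single6 (σ := Par κ) (d := Pool.Agent.H446.AP5.dw) hn hdw
    refine ⟨C, fun L ω y x H hy hyx hH hω hx => ?_⟩
    choose P hP using fun s => height_iff.1 (hω s)
    have h1 := hC (fun p => Good L p ω) y x H hy hyx hH ω P hP (fun p hp hg =>
      test L ((mem_prs (by linarith)).1 hp).1 hg) hx
    rwa [badSum_eq L (by linarith), card_par] at h1
  · have h1 := Pool.Agent.H446.AP5.fdeg_le (d := Pool.Agent.H446.AP5.dw) (fun s => (hdw s).1) hω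
    rwa [hsp, card_par] at h1
  · have hn : 0 < n := by
      rcases Nat.eq_zero_or_pos n with h | h
      · subst h
        simp at hκ
      · exact h
    obtain ⟨C, hC1, hC⟩ := Pool.Agent.H446.AP5.finite5 (σ := Par κ) (d := Pool.Agent.H446.AP5.dw) hn hdw
      (by rw [card_par]; exact hκ) hβ M
    refine ⟨C, hC1, fun L y H x hy hH hx => ?_⟩
    have hx0 : 0 ≤ x := by
      rw [hx]
      positivity
    have h1 := hC (fun p ω => Good L p ω) y H x hy hH (by rw [card_par]; exact hx) fun p hp ω hg =>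
      test L ((mem_prs hx0).1 hp).1 hg
    have h2 : Pool.Agent.H446.AP5.Few5 (fun p ω => Good L p ω) β M y x H = Few L β M y x H := by
      ext ω
      unfold Pool.Agent.H446.AP5.Few5 Few
      rw [Set.mem_ofPred_eq, Set.mem_ofPred_eq, badSum_eq L hx0]
      refine and_congr_left fun _ => ?_
      constructor
      · rintro ⟨P, hP⟩ s
        exact height_iff.2 ⟨P s, hP s⟩
      · intro h
        choose P hP using fun s => height_iff.1 (h s)
        exact ⟨P, hP⟩
    rw [h2, card_par] at h1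
    exact h1
  · refine ⟨hΔ, fun j => ?_⟩
    have hfact : Fact p.Prime := ⟨hp⟩
    have h1 : (fun k : Fin (e + 1) => ((full n e Δ).dir j k).map (Int.castRingHom (ZMod p))) =
        fun k : Fin (e + 1) => (X ^ (k : ℕ) : (ZMod p)[X]) := by
      funext k
      show (X ^ (k : ℕ) : ℤ[X]).map _ = _
      rw [Polynomial.map_pow, map_X]
    have h2 : LinearIndependent (ZMod p) fun k : ℕ => (X ^ k : (ZMod p)[X]) := by
      have h3 := (basisMonomials (ZMod p)).linearIndependent
      have h4 : ⇑(basisMonomials (ZMod p)) = fun k : ℕ => (X ^ k : (ZMod p)[X]) := by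
        funext k
        rw [coe_basisMonomials]
        exact (X_pow_eq_monomial k).symm
      rwa [h4] at h3
    show LinearIndependent (ZMod p) fun k : Fin (e + 1) => ((full n e Δ).dir j k).map (Int.castRingHom (ZMod p))
    rw [h1]
    exact h2.comp _ Fin.val_injective
  · have hfact : Fact p.Prime := ⟨hp⟩
    intro j l
    rw [← mem_iff]
    exact Pool.Agent.H446.AP5.nilp_of_vanish (fun i j l => (mem_iff _).2 (h i j l)) j l

end Pool.Agent.Results.MP_aa40d3_nt.SeveralParameters
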