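import Pool.Agent.H446.AP10.Fam
import Pool.Agent.H446.AP10.Conv
import Pool.Agent.H446.AP12.NoeQ
import Pool.Agent.H446.AP15.C7

/-!
# Parameters with vanishing `p`-curvatures lie on finitely many special subvarieties

Let `Y' + Δ⁻¹ A Y = 0` be an arbitrary algebraic family of linear differential systems over the line with `m`
parameters, `Δ` and the entries of `A` in `ℤ[ω_1, …, ω_m][x]`. For every algebraic point `ω` we look at the primes `p`
that are bad for `ω`: the member at `ω` is not integral at `p`, or its `p`-curvature is not zero (or not nilpotent) modulo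
`p`. Grothendieck's conjecture is about the `ω` with finitely many bad primes.

Call an irreducible subvariety `V` of the affine space special if outside of a proper closed subset all members at all
points of the reduction of `V` modulo `p` have `p`-curvature zero (or nilpotent), for all primes `p` outside of a set
with `∑ log p / p < ∞`. We show, for all `H` and `M`:

* let `V` be irreducible, and let `N` be so large that the sum of `log p / p` over the exceptional primes `p ≤ N` of `V`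
  is larger than `C (H + M + 1)`, with a constant `C` that depends only on `V` and on the family. Then the algebraic
  points of `V`, of any degree, with heights at most `H` and with `∑ log p / p ≤ M` over their bad primes `p ≤ N`, lie on
  one hypersurface of degree at most `C N` which does not contain `V`. If `V` is the line, there are at most `C N` of them;
* hence the Zariski closure of every set of algebraic points `ω`, of any degree, with heights at most `H` and with
  `∑ log p / p ≤ M` over their bad primes is a finite union of special subvarieties;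
* conversely, the algebraic points of a special variety outside of a proper closed subset have `∑ log p / p < ∞` over
  their bad primes;
* special varieties are nilpotent at infinity, see (5)-(7): if the entries of `A` have degree at most `D` in the parameters and `Δ`
  has a smaller degree, then the part of degree `D` of `A` is a nilpotent matrix at all points of the asymptotic cone of
  a special variety. So the closure in the second statement can only go to infinity in the directions in which the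
  `Higgs field` of the family is nilpotent; if there are no such directions, also only within a closed subset `W`, there
  are only finitely many points as in the second statement (in `W`).

This is an analogue of the theorems of Manin–Mumford and André–Oort type for the condition of Grothendieck, for points of
bounded height.

Proof. Let `V` be a variety with many exceptional primes up to `N`; write the functions on `V` as a free module over a
polynomial ring, up to a denominator. For every exceptional prime `p` there is a coefficient `F_p` of the `p`-curvature,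
of degree at most `c p`, which is not zero on `V` modulo `p`. By the pigeonhole principle there is a function `R ≠ 0` on
`V` of degree at most `D = C N` with small integral coefficients that lies in the ideal `(p, F_p) ^ (k_p)` with
`k_p = D / (C p)` for all these `p`. So `R(ω)` is divisible by `p ^ (k_p)` for every good prime, and `R(ω) = 0` by the
product formula, as soon as the sum of `log p / p` is large.
-/

set_option autoImplicit false

namespace Pool.Agent.Results.MP_aa40d3_nt.SpecialSubvarieties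

open Polynomial Finset

/-- The absolute logarithmic height of the algebraic number `z` is at most `H`: for the minimal polynomial `P` of `z`
over `ℤ`, the Mahler measure is at most `exp (deg P * H)`. -/
def HeightLE (z : ℂ) (H : ℝ) : Prop := ∃ P : ℤ[X], Irreducible P ∧ 0 < P.natDegree ∧ 0 < P.leadingCoeff ∧
  aeval z P = 0 ∧ (P.map (Int.castRingHom ℂ)).mahlerMeasure ≤ Real.exp (P.natDegree * H)

/-- The algebraic number `z` is integral at `p`. -/
def IntegralAt (p : ℕ) (z : ℂ) : Prop := ∃ s : ℤ, ¬ (p : ℤ) ∣ s ∧ IsIntegral ℤ ((s : ℂ) * z)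

/-- The matrices `G_0 = 1` and `G_{j+1} = Δ G_j' - j Δ' G_j + A G_j`. For the connection `∇ = d/dx + Δ⁻¹ A` the columns
of `Δ ^ (-j) G_j` are the vectors `∇ ^ j e_i`, see `curv_spec`; in characteristic `p` the matrix of the `p`-curvature
is `Δ ^ (-p) G_p`. -/
noncomputable def curv {r : ℕ} {k : Type*} [CommRing k] (Δ : k[X]) (A : Matrix (Fin r) (Fin r) k[X]) :
    ℕ → Matrix (Fin r) (Fin r) k[X]
  | 0 => 1
  | m + 1 => Matrix.of fun i j =>
      Δ * derivative (curv Δ A m i j) - m * derivative Δ * curv Δ A m i j + (A * curv Δ A m) i j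

/-- A family of systems `Y' + Δ⁻¹ A Y = 0` of rank `r` with `m` parameters. -/
structure Family (m r : ℕ) where
  lead : (MvPolynomial (Fin m) ℤ)[X]
  mat : Matrix (Fin r) (Fin r) (MvPolynomial (Fin m) ℤ)[X]

variable {m r : ℕ}

/-- The value `Δ_z` of the leading coefficient at a point `z` in a ring. -/
noncomputable def Family.leadAt (L : Family m r) {k : Type*} [CommRing k] (z : Fin m → k) : k[X] :=
  L.lead.map (MvPolynomial.aeval z : MvPolynomial (Fin m) ℤ →ₐ[ℤ] k)

/-- The matrix `G_j` of the member at a point `z` in a ring. -/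
noncomputable def Family.curvAt (L : Family m r) {k : Type*} [CommRing k] (z : Fin m → k) (j : ℕ) :
    Matrix (Fin r) (Fin r) k[X] :=
  curv (L.leadAt z) (L.mat.map fun f => f.map (MvPolynomial.aeval z : MvPolynomial (Fin m) ℤ →ₐ[ℤ] k)) j

/-- The prime `p` is good for `ω`: the `ω_i` are integral at `p`, and `G_p ^ q` is zero modulo `p`. For `q = 1` this
means that the `p`-curvature vanishes modulo `p`, and for `q = r` it is nilpotent modulo `p`. -/
def Good (L : Family m r) (q p : ℕ) (ω : Fin m → ℂ) : Prop :=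
  (∀ i, IntegralAt p (ω i)) ∧ ∀ i j l, IntegralAt p (((L.curvAt ω p ^ q) i j).coeff l / p)

open Classical in
/-- The sum of `log p / p` over the bad primes `p ≤ N`. -/
noncomputable def badSum (L : Family m r) (q : ℕ) (ω : Fin m → ℂ) (N : ℕ) : ℝ :=
  ∑ p ∈ (Icc 1 N).filter fun p : ℕ => p.Prime ∧ ¬ Good L q p ω, Real.log p / p

/-- The algebraic points `ω` with heights at most `H`, with `Δ_ω ≠ 0` and with `∑ log p / p ≤ M` over all the bad
primes. There is no condition on their degree. -/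
def Params (L : Family m r) (q : ℕ) (H M : ℝ) : Set (Fin m → ℂ) :=
  {ω | (∀ i, HeightLE (ω i) H) ∧ L.leadAt ω ≠ 0 ∧ ∀ N, badSum L q ω N ≤ M}

/-- The algebraic points `ω` with heights at most `H` and with `∑ log p / p ≤ M` over the bad primes `p ≤ N`. There is
no condition on their degree. -/
def ParamsUpTo (L : Family m r) (q : ℕ) (H M : ℝ) (N : ℕ) : Set (Fin m → ℂ) :=
  {ω | (∀ i, HeightLE (ω i) H) ∧ badSum L q ω N ≤ M}

/-- The point `z` lies on the variety defined by the ideal `𝔞`. -/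
def IsZero (𝔞 : Ideal (MvPolynomial (Fin m) ℤ)) {k : Type*} [CommRing k] (z : Fin m → k) : Prop :=
  ∀ f ∈ 𝔞, MvPolynomial.aeval z f = 0

/-- The ideal `𝔞` defines an irreducible subvariety of the affine space over `ℚ` (and is its ideal over `ℤ`). -/
def IsVariety (𝔞 : Ideal (MvPolynomial (Fin m) ℤ)) : Prop :=
  𝔞.IsPrime ∧ ∀ n : ℤ, MvPolynomial.C n ∈ 𝔞 → n = 0

/-- The prime `p` is exceptional for the variety of `𝔞` and the polynomial `g`: in characteristic `p` there is a point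
of the variety outside of the zeros of `g` at which `G_p ^ q` is not zero. -/
def Exceptional (L : Family m r) (q : ℕ) (𝔞 : Ideal (MvPolynomial (Fin m) ℤ)) (g : MvPolynomial (Fin m) ℤ) (p : ℕ) :
    Prop :=
  ∃ (k : Type) (_ : Field k) (_ : CharP k p) (z : Fin m → k), IsZero 𝔞 z ∧ MvPolynomial.aeval z g ≠ 0 ∧
    L.curvAt z p ^ q ≠ 0

open Classical in
/-- The sum of `log p / p` over the exceptional primes `p ≤ N`. -/
noncomputable def excSum (L : Family m r) (q : ℕ) (𝔞 : Ideal (MvPolynomial (Fin m) ℤ)) (g : MvPolynomial (Fin m) ℤ)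
    (N : ℕ) : ℝ :=
  ∑ p ∈ (Icc 1 N).filter fun p : ℕ => p.Prime ∧ Exceptional L q 𝔞 g p, Real.log p / p

/-- The variety of `𝔞` is special: `Δ` is not zero on it, and for some `g` which is not zero on it the sum of
`log p / p` over the exceptional primes is finite. -/
def Special (L : Family m r) (q : ℕ) (𝔞 : Ideal (MvPolynomial (Fin m) ℤ)) : Prop :=
  IsVariety 𝔞 ∧ (∃ l, L.lead.coeff l ∉ 𝔞) ∧ ∃ g ∉ 𝔞, ∃ C : ℝ, ∀ N, excSum L q 𝔞 g N ≤ C

/-- The points of `T` are Zariski dense on the variety of `𝔞`. -/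
def DenseOn (T : Set (Fin m → ℂ)) (𝔞 : Ideal (MvPolynomial (Fin m) ℤ)) : Prop :=
  ∀ R, (∀ ω ∈ T, IsZero 𝔞 ω → MvPolynomial.aeval ω R = 0) → R ∈ 𝔞

/-- The degrees in the parameters of the entries of `A` are at most `D`, and those of `Δ` are less than `D`. -/
def Family.DegreeLE (L : Family m r) (D : ℕ) : Prop :=
  (∀ l, (L.lead.coeff l).totalDegree < D) ∧ ∀ i j l, ((L.mat i j).coeff l).totalDegree ≤ D

/-- The terms of degree `D` in the parameters of the matrix `A`, at the point `z`. It is a matrix over `ℂ[x]`. -/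
noncomputable def Family.atInfinity (L : Family m r) (D : ℕ) (z : Fin m → ℂ) : Matrix (Fin r) (Fin r) ℂ[X] :=
  Matrix.of fun i j => ∑ l ∈ range ((L.mat i j).natDegree + 1),
    monomial l (MvPolynomial.aeval z (MvPolynomial.homogeneousComponent D ((L.mat i j).coeff l)))

/-- The point `z` lies on the asymptotic cone of the variety of `𝔞`: the terms of the highest degree of all the
polynomials of `𝔞` vanish at `z`. -/
def IsAsymptotic (𝔞 : Ideal (MvPolynomial (Fin m) ℤ)) (z : Fin m → ℂ) : Prop :=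
  ∀ f ∈ 𝔞, MvPolynomial.aeval z (MvPolynomial.homogeneousComponent f.totalDegree f) = 0

/-! ### The meaning of `curv` -/

/-- The columns of `Δ ^ (-m) G_m` are the vectors `∇ ^ m e_j`, in every differential field that contains `k[x]`. -/
lemma curv_spec {n : ℕ} {k K : Type*} [CommRing k] [Field K] (D : Derivation ℤ K K) (φ : k[X] →+* K)
    (hφ : ∀ f, D (φ f) = φ (derivative f)) {Δ : k[X]} (hΔ : φ Δ ≠ 0) (A : Matrix (Fin n) (Fin n) k[X])
    (m : ℕ) (j : Fin n) :
    (fun v : Fin n → K => fun i => D (v i) + (φ Δ)⁻¹ * ∑ l, φ (A i l) * v l)^[m] (Pi.single j 1) =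
      fun i => φ (curv Δ A m i j) / φ Δ ^ m := by
  induction m with
  | zero =>
    funext i
    show (Pi.single j 1 : Fin n → K) i = φ ((1 : Matrix (Fin n) (Fin n) k[X]) i j) / φ Δ ^ 0
    rw [pow_zero, div_one, Pi.single_apply, Matrix.one_apply]
    split_ifs <;> simp
  | succ m ih =>
    rw [Function.iterate_succ_apply', ih]
    funext i
    have h1 : D (φ (curv Δ A m i j) / φ Δ ^ m) =
        (φ Δ * φ (derivative (curv Δ A m i j)) - m * φ (derivative Δ) * φ (curv Δ A m i j)) / φ Δ ^ (m + 1) := by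
      rw [Derivation.leibniz_div, Derivation.leibniz_pow, hφ, hφ]
      rcases Nat.eq_zero_or_pos m with h | h
      · subst h
        simp
        field_simp
      · obtain ⟨k, rfl⟩ : ∃ k, m = k + 1 := ⟨m - 1, by omega⟩
        simp only [Nat.add_sub_cancel, smul_eq_mul, nsmul_eq_mul]
        field_simp
        ring
    have h2 : φ (curv Δ A (m + 1) i j) =
        φ Δ * φ (derivative (curv Δ A m i j)) - m * φ (derivative Δ) * φ (curv Δ A m i j) +
          ∑ l, φ (A i l) * φ (curv Δ A m l j) := by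
      show φ (Δ * derivative (curv Δ A m i j) - m * derivative Δ * curv Δ A m i j + (A * curv Δ A m) i j) = _
      rw [Matrix.mul_apply, map_add, map_sub, map_mul, map_mul, map_mul, map_natCast, map_sum]
      congr 1
      exact Finset.sum_congr rfl fun l _ => map_mul _ _ _
    show D (φ (curv Δ A m i j) / φ Δ ^ m) + (φ Δ)⁻¹ * ∑ l, φ (A i l) * (φ (curv Δ A m l j) / φ Δ ^ m) = _
    rw [h1, h2, add_div]
    congr 1
    rw [Finset.mul_sum, Finset.sum_div]
    refine Finset.sum_congr rfl fun l _ => ?_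
    field_simp
    ring

/-! ### Translation -/

open Pool.Agent.H446.AP10 in
lemma curv_eq {n : ℕ} {K : Type*} [CommRing K] (Δ : K[X]) (A : Matrix (Fin n) (Fin n) K[X]) (m : ℕ) :
    curv Δ A m = Pool.Agent.H446.AP4.curv (fun f : K[X] => derivative f) Δ A m := by
  induction m with
  | zero => rfl
  | succ m ih =>
    refine Matrix.ext fun i j => ?_
    show Δ * derivative (curv Δ A m i j) - m * derivative Δ * curv Δ A m i j + (A * curv Δ A m) i j = _
    rw [ih]
    rfl

/-- The coefficients. -/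
def Fs (L : Family m r) (q : ℕ) : ℕ → Set (MvPolynomial (Fin m) ℤ) := Pool.Agent.H446.AP10.FF L.lead L.mat q

lemma coeff_curvAt (L : Family m r) {k : Type*} [CommRing k] (z : Fin m → k) (p q : ℕ) (i j : Fin r) (l : ℕ) :
    ((L.curvAt z p ^ q) i j).coeff l = MvPolynomial.aeval z
      (((Pool.Agent.H446.AP4.curv (fun f => derivative f) L.lead L.mat p ^ q) i j).coeff l) := by
  have h1 : L.curvAt z p = Pool.Agent.H446.AP10.cvAt L.lead L.mat
      ((MvPolynomial.aeval z : MvPolynomial (Fin m) ℤ →ₐ[ℤ] k) : MvPolynomial (Fin m) ℤ →+* k) p := by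
    unfold Family.curvAt
    rw [curv_eq]
    rfl
  rw [h1, Pool.Agent.H446.AP10.cvAt_pow]
  rfl

lemma good_iff (L : Family m r) {q p : ℕ} (hp : p.Prime) (ω : Fin m → ℂ) :
    Good L q p ω ↔ Pool.Agent.H446.AP10.Gd (Fs L q) p ω := by
  have hfact : Fact p.Prime := ⟨hp⟩
  have hp0 : (p : ℂ) ≠ 0 := by exact_mod_cast hp.ne_zero
  constructor
  · rintro ⟨h1, h2⟩
    refine ⟨hfact, fun i => h1 i, ?_⟩
    rintro F ⟨i, j, l, rfl⟩
    have h3 := h2 i j l
    rw [coeff_curvAt] at h3
    exact ⟨_, h3, by rw [mul_div_cancel₀ _ hp0]⟩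
  · rintro ⟨_, h1, h2⟩
    refine ⟨fun i => h1 i, fun i j l => ?_⟩
    obtain ⟨y, hy, h3⟩ := h2 _ ⟨i, j, l, rfl⟩
    rw [coeff_curvAt, h3, mul_div_cancel_left₀ _ hp0]
    exact hy

lemma exc_iff (L : Family m r) (q : ℕ) (𝔞 : Ideal (MvPolynomial (Fin m) ℤ)) (g : MvPolynomial (Fin m) ℤ) (p : ℕ) :
    Exceptional L q 𝔞 g p ↔ Pool.Agent.H446.AP10.Non (Fs L q) 𝔞 g p := by
  constructor
  · rintro ⟨k, i1, i2, z, hz, hg, h⟩
    refine ⟨k, i1, i2, z, hz, hg, ?_⟩
    by_contra h1
    push Not at h1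
    refine h (Matrix.ext fun i j => Polynomial.ext fun l => ?_)
    rw [coeff_curvAt, h1 _ ⟨i, j, l, rfl⟩]
    rfl
  · rintro ⟨k, i1, i2, z, hz, hg, F, ⟨i, j, l, rfl⟩, h⟩
    refine ⟨k, i1, i2, z, hz, hg, fun h1 => h ?_⟩
    rw [← coeff_curvAt, h1]
    rfl

lemma log_div_nonneg {p : ℕ} : 0 ≤ Real.log p / (p : ℝ) := div_nonneg (Real.log_natCast_nonneg p) (Nat.cast_nonneg p)

lemma badSum_le {L : Family m r} {q : ℕ} {ω : Fin m → ℂ} {M : ℝ} {N : ℕ} (h : badSum L q ω N ≤ M) (Q : Finset ℕ)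
    (hQ : ∀ p ∈ Q, p.Prime ∧ p ≤ N ∧ ¬ Pool.Agent.H446.AP10.Gd (Fs L q) p ω) : ∑ p ∈ Q, Real.log p / p ≤ M := by
  classical
  refine le_trans ?_ h
  unfold badSum
  refine Finset.sum_le_sum_of_subset_of_nonneg (fun p hp => ?_) fun _ _ _ => log_div_nonneg
  rw [mem_filter, mem_Icc]
  obtain ⟨h1, h2, h3⟩ := hQ p hp
  exact ⟨⟨h1.one_lt.le, h2⟩, h1, fun h4 => h3 ((good_iff L h1 ω).1 h4)⟩

lemma height_iff {z : ℂ} {H : ℝ} : HeightLE z H ↔ ∃ P : ℤ[X], Pool.Agent.H446.AP.Orb P ∧
    Real.log (Pool.Agent.H446.AP.mm P) ≤ P.natDegree * H ∧ aeval z P = 0 := by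
  constructor
  · rintro ⟨P, h1, h2, h3, h4, h5⟩
    refine ⟨P, ⟨h1, h2, h3⟩, ?_, h4⟩
    have h6 := Pool.Agent.H446.AP.one_le_mm h1.ne_zero
    have h7 := Real.log_le_log (by linarith) (show Pool.Agent.H446.AP.mm P ≤ _ from h5)
    rwa [Real.log_exp] at h7
  · rintro ⟨P, ⟨h1, h2, h3⟩, h4, h5⟩
    refine ⟨P, h1, h2, h3, h5, ?_⟩
    have h6 := Pool.Agent.H446.AP.one_le_mm h1.ne_zero
    have h7 := Real.exp_le_exp.2 h4
    rwa [Real.exp_log (by linarith)] at h7

lemma excSum_ge {L : Family m r} {q : ℕ} {𝔞 : Ideal (MvPolynomial (Fin m) ℤ)} {g : MvPolynomial (Fin m) ℤ} {C : ℝ}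
    (h : ∀ N, excSum L q 𝔞 g N ≤ C) (Q : Finset ℕ)
    (hQ : ∀ p ∈ Q, p.Prime ∧ Pool.Agent.H446.AP10.Non (Fs L q) 𝔞 g p) : ∑ p ∈ Q, Real.log p / p ≤ C := by
  classical
  refine le_trans ?_ (h (Q.sup id))
  unfold excSum
  refine Finset.sum_le_sum_of_subset_of_nonneg (fun p hp => ?_) fun _ _ _ => log_div_nonneg
  rw [mem_filter, mem_Icc]
  exact ⟨⟨(hQ p hp).1.one_lt.le, Finset.le_sup (f := id) hp⟩, (hQ p hp).1, (exc_iff L q 𝔞 g p).2 (hQ p hp).2⟩

lemma atInfinity_eq (L : Family m r) (D : ℕ) (z : Fin m → ℂ) :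
    L.atInfinity D z = Pool.Agent.H446.AP15.vl z (L.mat.map (Pool.Agent.H446.AP15.hx D)) := by
  refine Matrix.ext fun i j => Polynomial.ext fun l => ?_
  rw [Pool.Agent.H446.AP15.coeff_vl, Matrix.map_apply, Pool.Agent.H446.AP15.coeff_hx]
  show (∑ l ∈ range ((L.mat i j).natDegree + 1),
    monomial l (MvPolynomial.aeval z (MvPolynomial.homogeneousComponent D ((L.mat i j).coeff l)))).coeff l = _
  rw [finsetSum_coeff]
  by_cases h : l ∈ range ((L.mat i j).natDegree + 1)
  · rw [Finset.sum_eq_single_of_mem l h fun b _ hb => by rw [coeff_monomial, if_neg hb], coeff_monomial, if_pos rfl]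
  · rw [Finset.sum_eq_zero fun b hb => by
      rw [coeff_monomial]
      exact if_neg fun h1 => h (by rw [← h1]; exact hb)]
    rw [mem_range, not_lt] at h
    rw [coeff_eq_zero_of_natDegree_lt (by omega), map_zero, map_zero]

lemma nilpotent_of_special {L : Family m r} {q D : ℕ} {𝔞 : Ideal (MvPolynomial (Fin m) ℤ)} (hL : L.DegreeLE D)
    (h : Special L q 𝔞) {z : Fin m → ℂ} (hz : IsAsymptotic 𝔞 z) : IsNilpotent (L.atInfinity D z) := by
  obtain ⟨⟨h𝔞, -⟩, -, g, hg, C, hC⟩ := h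
  obtain ⟨D, rfl⟩ : ∃ D', D = D' + 1 := ⟨D - 1, by have := hL.1 0; omega⟩
  rw [atInfinity_eq]
  refine Pool.Agent.H446.AP15.nilpotent_at_infinity (Δ := L.lead) (B := L.mat) (fun l => Nat.lt_succ_iff.1 (hL.1 l))
    (fun i j l => hL.2 i j l) h𝔞 hg (q := q) (excSum_ge hC) fun f hf n hn => ?_
  rcases hn.eq_or_lt with h1 | h1
  · subst h1
    exact hz f hf
  · rw [MvPolynomial.homogeneousComponent_eq_zero _ _ h1, map_zero]

lemma all_exceptional {L : Family m r} (q : ℕ) {D : ℕ} {𝔞 : Ideal (MvPolynomial (Fin m) ℤ)} {g : MvPolynomial (Fin m) ℤ}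
    (hL : L.DegreeLE D) (h𝔞 : IsVariety 𝔞) (hg : g ∉ 𝔞) {z : Fin m → ℂ} (hz : IsAsymptotic 𝔞 z)
    (hnil : ¬ IsNilpotent (L.atInfinity D z)) :
    ∃ d : ℕ, 0 < d ∧ ∀ p : ℕ, p.Prime → ¬ p ∣ d → Exceptional L q 𝔞 g p := by
  obtain ⟨D, rfl⟩ : ∃ D', D = D' + 1 := ⟨D - 1, by have := hL.1 0; omega⟩
  rw [atInfinity_eq] at hnil
  obtain ⟨d, hd, h1⟩ := Pool.Agent.H446.AP15.all_exceptional (Δ := L.lead) (B := L.mat)
    (fun l => Nat.lt_succ_iff.1 (hL.1 l)) (fun i j l => hL.2 i j l) h𝔞.1 hg (q := q) (z := z) (fun f hf n hn => by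
      rcases hn.eq_or_lt with h1 | h1
      · subst h1
        exact hz f hf
      · rw [MvPolynomial.homogeneousComponent_eq_zero _ _ h1, map_zero]) hnil
  exact ⟨d, hd, fun p hp hpd => (exc_iff L q 𝔞 g p).2 (h1 p hp hpd)⟩

lemma excSum_lower {L : Family m r} {q : ℕ} {𝔞 : Ideal (MvPolynomial (Fin m) ℤ)} {g : MvPolynomial (Fin m) ℤ} {d : ℕ}
    (hd : 0 < d) (h : ∀ p : ℕ, p.Prime → ¬ p ∣ d → Exceptional L q 𝔞 g p) :
    ∃ c : ℝ, 0 ≤ c ∧ ∀ N : ℕ, 1 ≤ N → Real.log N - c ≤ excSum L q 𝔞 g N := by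
  classical
  obtain ⟨c, hc, h1⟩ := Pool.Agent.H446.AP15.mertens_lower hd
  refine ⟨c, hc, fun N hN => (h1 N hN).trans ?_⟩
  unfold excSum
  refine Finset.sum_le_sum_of_subset_of_nonneg (fun p hp => ?_) fun _ _ _ => log_div_nonneg
  rw [mem_filter] at hp
  rw [mem_filter]
  exact ⟨hp.1, hp.2.1, h p hp.2.1 hp.2.2⟩

lemma finite_of_isAsymptotic {𝔞 : Ideal (MvPolynomial (Fin m) ℤ)} (h : ∀ z : Fin m → ℂ, IsAsymptotic 𝔞 z → z = 0) :
    {ω : Fin m → ℂ | IsZero 𝔞 ω}.Finite :=
  Pool.Agent.H446.AP15.finite_of_asymptotic fun z hz => h z fun f hf => hz f hf _ le_rfl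

lemma isAsymptotic_mono {𝔞 𝔟 : Ideal (MvPolynomial (Fin m) ℤ)} (h : 𝔟 ≤ 𝔞) {z : Fin m → ℂ} (hz : IsAsymptotic 𝔞 z) :
    IsAsymptotic 𝔟 z := fun f hf => hz f (h hf)

/-- A polynomial in one variable of total degree at most `d` has at most `d` zeros. -/
lemma card_zeros {f : MvPolynomial (Fin 1) ℤ} (hf : f ≠ 0) {d : ℕ} (hd : f.totalDegree ≤ d) :
    {ω : Fin 1 → ℂ | MvPolynomial.aeval ω f = 0}.Finite ∧ {ω : Fin 1 → ℂ | MvPolynomial.aeval ω f = 0}.ncard ≤ d := by
  classical
  let e := MvPolynomial.uniqueAlgEquiv ℤ (Fin 1)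
  have hX : e (MvPolynomial.X 0) = X := by
    simp [e]
  have he : (e : MvPolynomial (Fin 1) ℤ →ₐ[ℤ] ℤ[X]) = MvPolynomial.aeval fun _ => (X : ℤ[X]) := by
    refine MvPolynomial.algHom_ext fun i => ?_
    have h3 : i = 0 := Subsingleton.elim _ _
    subst h3
    rw [MvPolynomial.aeval_X]
    exact hX
  have hP : e f ≠ 0 := fun h => hf (e.injective (by rw [h, map_zero]))
  have hdeg : (e f).natDegree ≤ d := by
    have h1 : e f = MvPolynomial.aeval (fun _ => (X : ℤ[X])) f :=
      congrArg (fun φ : MvPolynomial (Fin 1) ℤ →ₐ[ℤ] ℤ[X] => φ f) he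
    have h2 := MvPolynomial.aeval_natDegree_le (n := 1) f hd (fun _ => (X : ℤ[X])) fun _ => natDegree_X_le
    rw [h1]
    rwa [mul_one] at h2
  have h1 : ∀ ω : Fin 1 → ℂ, aeval (ω 0) (e f) = MvPolynomial.aeval ω f := by
    intro ω
    have h2 : ((aeval (ω 0) : ℤ[X] →ₐ[ℤ] ℂ).comp (e : MvPolynomial (Fin 1) ℤ →ₐ[ℤ] ℤ[X])) = MvPolynomial.aeval ω := by
      refine MvPolynomial.algHom_ext fun i => ?_
      have h3 : i = 0 := Subsingleton.elim _ _
      subst h3
      show aeval (ω 0) (e (MvPolynomial.X 0)) = MvPolynomial.aeval ω (MvPolynomial.X 0)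
      rw [MvPolynomial.aeval_X, hX, aeval_X]
    exact congrArg (fun φ : MvPolynomial (Fin 1) ℤ →ₐ[ℤ] ℂ => φ f) h2
  have h3 : (e f).map (Int.castRingHom ℂ) ≠ 0 := (Polynomial.map_ne_zero_iff Int.cast_injective).2 hP
  have h4 : {ω : Fin 1 → ℂ | MvPolynomial.aeval ω f = 0} ⊆
      (((e f).map (Int.castRingHom ℂ)).roots.toFinset.image fun z => fun _ : Fin 1 => z : Finset (Fin 1 → ℂ)) := by
    intro ω hω
    rw [Finset.coe_image]
    refine ⟨ω 0, ?_, ?_⟩
    · rw [Finset.mem_coe, Multiset.mem_toFinset, mem_roots h3, IsRoot.def, eval_map]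
      show aeval (ω 0) (e f) = 0
      rw [h1]
      exact hω
    · funext i
      have h3 : i = 0 := Subsingleton.elim _ _
      subst h3
      rfl
  refine ⟨(Finset.finite_toSet _).subset h4, ?_⟩
  calc {ω : Fin 1 → ℂ | MvPolynomial.aeval ω f = 0}.ncard ≤
        (((e f).map (Int.castRingHom ℂ)).roots.toFinset.image fun z => fun _ : Fin 1 => z).card := by
        have h5 := Set.ncard_le_ncard h4 (Finset.finite_toSet _)
        rwa [Set.ncard_coe_finset] at h5
    _ ≤ ((e f).map (Int.castRingHom ℂ)).roots.toFinset.card := Finset.card_image_le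
    _ ≤ Multiset.card ((e f).map (Int.castRingHom ℂ)).roots := Multiset.toFinset_card_le _
    _ ≤ ((e f).map (Int.castRingHom ℂ)).natDegree := card_roots' _
    _ ≤ (e f).natDegree := natDegree_map_le
    _ ≤ d := hdeg

lemma isVariety_bot : IsVariety (⊥ : Ideal (MvPolynomial (Fin m) ℤ)) :=
  ⟨Ideal.isPrime_bot, fun n hn => by
    rw [Ideal.mem_bot, MvPolynomial.C_eq_zero] at hn
    exact hn⟩

/-- **Theorem.** Let `Y' + Δ⁻¹ A Y = 0` be a family of systems of rank `r` with `m` parameters, `Δ` and the entries of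
`A` in `ℤ[ω_1, …, ω_m][x]`, and `q` a natural number.
(1) For every irreducible variety `V` there are `g` which is not zero on it and a constant `C` such that for all
`H, M ≥ 0` and all `N` for which the sum of `log p / p` over the exceptional primes `p ≤ N` is larger than
`C (H + M + 1)`: there is a polynomial `R` of degree at most `C N`, which is not zero on `V`, and which vanishes at all
algebraic points `ω` of `V`, of any degree, with heights at most `H` and with `∑ log p / p ≤ M` over their bad primes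
`p ≤ N`.
(2) Let `T` be a set of algebraic points `ω`, of any degree, with heights at most `H`, with `Δ_ω ≠ 0` and with
`∑ log p / p ≤ M` over all their bad primes. Then there are finitely many special varieties such that every point of
`T` lies on one of them, and `T` is Zariski dense on each of them.
(3) For every algebraic point `ω` of a variety with `g(ω) ≠ 0` the sum of `log p / p` over the bad primes `p ≤ N` of `ω`
is at most the sum over the exceptional primes `p ≤ N` plus a constant. So it is bounded if the variety is special with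
the polynomial `g`.
(4) If `m = 1`, there are `g ≠ 0` and `C` such that for all `H, M ≥ 0` and `N` as in (1), for the whole line, there are
at most `C N` algebraic numbers, of all degrees together, as in (1).
In (5)-(8) let the degrees in the parameters of `A` be at most `D`, and those of `Δ` less than `D`.
(5) If `L.atInfinity D z` is not nilpotent for some point `z` of the asymptotic cone of an irreducible variety `V`, then
almost all primes are exceptional for `V`, for every `g`.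
(6) In the same case there is a constant `C` such that for all `H, M ≥ 0` and all `N ≥ exp (C (H + M + 1))` there is a
polynomial `R` as in (1), so of degree at most `C N`.
(7) For every special variety and every point `z` of its asymptotic cone the matrix `L.atInfinity D z` is nilpotent.
(8) Let `W` be a closed subset (of the ideal `𝔟`) such that `L.atInfinity D z` is not nilpotent for any `z ≠ 0` of the
asymptotic cone of `W`. Then only finitely many algebraic points `ω` of `W`, of all degrees together, have heights at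
most `H`, `Δ_ω ≠ 0` and `∑ log p / p ≤ M` over all their bad primes. -/
theorem result :
    (∀ (m r : ℕ) (L : Family m r) (q : ℕ) (𝔞 : Ideal (MvPolynomial (Fin m) ℤ)), IsVariety 𝔞 →
      ∃ g ∉ 𝔞, ∃ C : ℕ, ∀ H M : ℝ, 0 ≤ H → 0 ≤ M → ∀ N : ℕ, C * (H + M + 1) < excSum L q 𝔞 g N →
        ∃ R ∉ 𝔞, R.totalDegree ≤ C * N ∧
          ∀ ω ∈ ParamsUpTo L q H M N, IsZero 𝔞 ω → MvPolynomial.aeval ω R = 0) ∧
    (∀ (m r : ℕ) (L : Family m r) (q : ℕ) (H M : ℝ) (T : Set (Fin m → ℂ)), T ⊆ Params L q H M →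
      ∃ S : Set (Ideal (MvPolynomial (Fin m) ℤ)), S.Finite ∧ (∀ 𝔞 ∈ S, Special L q 𝔞 ∧ DenseOn T 𝔞) ∧
        ∀ ω ∈ T, ∃ 𝔞 ∈ S, IsZero 𝔞 ω) ∧
    (∀ (m r : ℕ) (L : Family m r) (q : ℕ) (𝔞 : Ideal (MvPolynomial (Fin m) ℤ)) (g : MvPolynomial (Fin m) ℤ)
      (ω : Fin m → ℂ), (∀ i, IsAlgebraic ℚ (ω i)) → IsZero 𝔞 ω → MvPolynomial.aeval ω g ≠ 0 →
        ∃ C : ℝ, ∀ N, badSum L q ω N ≤ excSum L q 𝔞 g N + C) ∧
    (∀ (r : ℕ) (L : Family 1 r) (q : ℕ), ∃ g : MvPolynomial (Fin 1) ℤ, g ≠ 0 ∧ ∃ C : ℕ, ∀ H M : ℝ, 0 ≤ H → 0 ≤ M →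
      ∀ N : ℕ, C * (H + M + 1) < excSum L q ⊥ g N →
        (ParamsUpTo L q H M N).Finite ∧ (ParamsUpTo L q H M N).ncard ≤ C * N) ∧
    (∀ (m r : ℕ) (L : Family m r) (q D : ℕ) (𝔞 : Ideal (MvPolynomial (Fin m) ℤ)) (g : MvPolynomial (Fin m) ℤ)
      (z : Fin m → ℂ), L.DegreeLE D → IsVariety 𝔞 → g ∉ 𝔞 → IsAsymptotic 𝔞 z → ¬ IsNilpotent (L.atInfinity D z) →
        ∃ d : ℕ, 0 < d ∧ ∀ p : ℕ, p.Prime → ¬ p ∣ d → Exceptional L q 𝔞 g p) ∧
    (∀ (m r : ℕ) (L : Family m r) (q D : ℕ) (𝔞 : Ideal (MvPolynomial (Fin m) ℤ)) (z : Fin m → ℂ), L.DegreeLE D →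
      IsVariety 𝔞 → IsAsymptotic 𝔞 z → ¬ IsNilpotent (L.atInfinity D z) →
        ∃ C : ℕ, ∀ H M : ℝ, 0 ≤ H → 0 ≤ M → ∀ N : ℕ, Real.exp (C * (H + M + 1)) ≤ N →
          ∃ R ∉ 𝔞, R.totalDegree ≤ C * N ∧
            ∀ ω ∈ ParamsUpTo L q H M N, IsZero 𝔞 ω → MvPolynomial.aeval ω R = 0) ∧
    (∀ (m r : ℕ) (L : Family m r) (q D : ℕ) (𝔞 : Ideal (MvPolynomial (Fin m) ℤ)), L.DegreeLE D → Special L q 𝔞 →
      ∀ z : Fin m → ℂ, IsAsymptotic 𝔞 z → IsNilpotent (L.atInfinity D z)) ∧
    ∀ (m r : ℕ) (L : Family m r) (q D : ℕ) (𝔟 : Ideal (MvPolynomial (Fin m) ℤ)), L.DegreeLE D →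
      (∀ z : Fin m → ℂ, IsAsymptotic 𝔟 z → IsNilpotent (L.atInfinity D z) → z = 0) →
        ∀ H M : ℝ, {ω | ω ∈ Params L q H M ∧ IsZero 𝔟 ω}.Finite := by
  classical
  have one : ∀ (m r : ℕ) (L : Family m r) (q : ℕ) (𝔞 : Ideal (MvPolynomial (Fin m) ℤ)), IsVariety 𝔞 →
      ∃ g ∉ 𝔞, ∃ C : ℕ, ∀ H M : ℝ, 0 ≤ H → 0 ≤ M → ∀ N : ℕ, C * (H + M + 1) < excSum L q 𝔞 g N →
        ∃ R ∉ 𝔞, R.totalDegree ≤ C * N ∧
          ∀ ω ∈ ParamsUpTo L q H M N, IsZero 𝔞 ω → MvPolynomial.aeval ω R = 0 := by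
    intro m r L q 𝔞 h𝔞
    obtain ⟨c, hc⟩ := Pool.Agent.H446.AP10.FF_degree L.lead L.mat q
    obtain ⟨g, hg, T₀, C, hC⟩ := Pool.Agent.H446.AP12.denseQ (𝓕 := Fs L q) hc h𝔞.1 h𝔞.2
    refine ⟨g, hg, max ⌈T₀⌉₊ C, fun H M hH hM N hlt => ?_⟩
    obtain ⟨R, hR, hdeg, hz⟩ := hC H M hH hM ((Icc 1 N).filter fun p : ℕ => p.Prime ∧ Exceptional L q 𝔞 g p) N
      (fun p hp => by
        rw [mem_filter, mem_Icc] at hp
        exact ⟨hp.2.1, hp.1.2, (exc_iff L q 𝔞 g p).1 hp.2.2⟩) (by
      refine lt_of_le_of_lt ?_ hlt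
      refine mul_le_mul_of_nonneg_right ((Nat.le_ceil T₀).trans ?_) (by linarith)
      exact_mod_cast le_max_left _ _)
    refine ⟨R, hR, hdeg.trans (Nat.mul_le_mul_right _ (le_max_right _ _)), fun ω hω hω0 => ?_⟩
    refine hz ω (fun i => height_iff.1 (hω.1 i)) (fun Q' hQ' hbad => badSum_le hω.2 Q' fun p hp => ?_) hω0
    have h1 := hQ' hp
    rw [mem_filter, mem_Icc] at h1
    exact ⟨h1.2.1, h1.1.2, hbad p hp⟩
  have two : ∀ (m r : ℕ) (L : Family m r) (q : ℕ) (H M : ℝ) (T : Set (Fin m → ℂ)), T ⊆ Params L q H M →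
      ∃ S : Set (Ideal (MvPolynomial (Fin m) ℤ)), S.Finite ∧ (∀ 𝔞 ∈ S, Special L q 𝔞 ∧ DenseOn T 𝔞) ∧
        ∀ ω ∈ T, ∃ 𝔞 ∈ S, IsZero 𝔞 ω := by
    intro m r L q H M T hT
    obtain ⟨S, hS1, hS2, hS3⟩ := Pool.Agent.H446.AP10.closure_finite T
    refine ⟨S, hS1, fun 𝔞 h𝔞 => ?_, hS3⟩
    obtain ⟨hp, ⟨ω, hω, hz⟩, h0, hd⟩ := hS2 𝔞 h𝔞
    have hd' : DenseOn T 𝔞 := hd
    obtain ⟨g, hg, C, hC⟩ := one m r L q 𝔞 ⟨hp, h0⟩
    refine ⟨⟨⟨hp, h0⟩, ?_, g, hg, C * (|H| + |M| + 1), fun N => ?_⟩, hd'⟩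
    · by_contra h
      push Not at h
      refine (hT hω).2.1 (Polynomial.ext fun l => ?_)
      show (L.lead.map _).coeff l = 0
      rw [coeff_map]
      exact hz _ (h l)
    · by_contra h
      push Not at h
      obtain ⟨R, hR, -, h1⟩ := hC |H| |M| (abs_nonneg _) (abs_nonneg _) N h
      refine hR (hd' R fun ω' hω' hz' => h1 ω' ⟨fun i => ?_, ((hT hω').2.2 N).trans (le_abs_self _)⟩ hz')
      obtain ⟨P, h2, h3, h4, h5, h6⟩ := (hT hω').1 i
      exact ⟨P, h2, h3, h4, h5, h6.trans (Real.exp_le_exp.2 (mul_le_mul_of_nonneg_left (le_abs_self _)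
        (Nat.cast_nonneg _)))⟩
  refine ⟨one, two, fun m r L q 𝔞 g ω hω hz hg => ?_, fun r L q => ?_,
    fun m r L q D 𝔞 g z hL h𝔞 hg hz hnil => all_exceptional q hL h𝔞 hg hz hnil, fun m r L q D 𝔞 z hL h𝔞 hz hnil => ?_,
    fun m r L q D 𝔞 hL h z hz => nilpotent_of_special hL h hz, fun m r L q D 𝔟 hL h𝔟 H M => ?_⟩
  · obtain ⟨d, hd, h1⟩ := Pool.Agent.H446.AP10.conv (𝓕 := Fs L q) hω hz hg
    refine ⟨∑ p ∈ d.divisors, Real.log p / p, fun N => ?_⟩
    unfold badSum excSum
    rw [← Finset.sum_filter_add_sum_filter_not (s := (Icc 1 N).filter fun p : ℕ => p.Prime ∧ ¬ Good L q p ω)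
      (fun p => Exceptional L q 𝔞 g p)]
    refine add_le_add (Finset.sum_le_sum_of_subset_of_nonneg (fun p hp => ?_) fun _ _ _ => log_div_nonneg)
      (Finset.sum_le_sum_of_subset_of_nonneg (fun p hp => ?_) fun _ _ _ => log_div_nonneg)
    · rw [mem_filter, mem_filter] at hp
      rw [mem_filter]
      exact ⟨hp.1.1, hp.1.2.1, hp.2⟩
    · rw [mem_filter, mem_filter] at hp
      obtain ⟨⟨-, hpp, hbad⟩, hne⟩ := hp
      rw [Nat.mem_divisors]
      refine ⟨?_, hd.ne'⟩
      by_contra hpd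
      exact hbad ((good_iff L hpp ω).2 (h1 p hpp hpd fun h => hne ((exc_iff L q 𝔞 g p).2 h)))
  · obtain ⟨g, hg, C, hC⟩ := one 1 r L q ⊥ isVariety_bot
    refine ⟨g, fun h => hg (Ideal.mem_bot.2 h), C, fun H M hH hM N hlt => ?_⟩
    obtain ⟨R, hR, hdeg, h1⟩ := hC H M hH hM N hlt
    have hR0 : R ≠ 0 := fun h => hR (Ideal.mem_bot.2 h)
    obtain ⟨h2, h3⟩ := card_zeros hR0 hdeg
    have h4 : ParamsUpTo L q H M N ⊆ {ω : Fin 1 → ℂ | MvPolynomial.aeval ω R = 0} := fun ω hω =>
      h1 ω hω fun f hf => by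
        rw [Ideal.mem_bot.1 hf, map_zero]
    exact ⟨h2.subset h4, (Set.ncard_le_ncard h4 h2).trans h3⟩
  · obtain ⟨g, hg, C, hC⟩ := one m r L q 𝔞 h𝔞
    obtain ⟨d, hd, h1⟩ := all_exceptional q hL h𝔞 hg hz hnil
    obtain ⟨c, hc, h2⟩ := excSum_lower hd h1
    refine ⟨C + ⌈c⌉₊ + 1, fun H M hH hM N hN => ?_⟩
    have h3 : (1 : ℝ) ≤ Real.exp ((C + ⌈c⌉₊ + 1 : ℕ) * (H + M + 1)) := Real.one_le_exp (by positivity)
    have h4 : 1 ≤ N := by exact_mod_cast h3.trans hN
    have h5 := Real.log_le_log (Real.exp_pos _) hN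
    rw [Real.log_exp] at h5
    have h6 := h2 N h4
    have h7 := Nat.le_ceil c
    have h8 : (⌈c⌉₊ : ℝ) ≤ ⌈c⌉₊ * (H + M + 1) := le_mul_of_one_le_right (Nat.cast_nonneg _) (by linarith)
    push_cast at h5
    obtain ⟨R, hR, hdeg, h9⟩ := hC H M hH hM N (by
      have h10 : ((C : ℝ) + ⌈c⌉₊ + 1) * (H + M + 1) = C * (H + M + 1) + ⌈c⌉₊ * (H + M + 1) + (H + M + 1) := by ring
      rw [h10] at h5
      linarith)
    exact ⟨R, hR, hdeg.trans (Nat.mul_le_mul_right _ (by omega)), h9⟩
  · obtain ⟨S, hS1, hS2, hS3⟩ := two m r L q H M {ω | ω ∈ Params L q H M ∧ IsZero 𝔟 ω} fun ω hω => hω.1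
    refine (hS1.biUnion (t := fun 𝔞 => {ω : Fin m → ℂ | IsZero 𝔞 ω}) fun 𝔞 h𝔞 => finite_of_isAsymptotic fun z hz => ?_).subset
      fun ω hω => ?_
    · obtain ⟨h1, h2⟩ := hS2 𝔞 h𝔞
      exact h𝔟 z (isAsymptotic_mono (fun R hR => h2 R fun ω hω _ => hω.2 R hR) hz) (nilpotent_of_special hL h1 hz)
    · obtain ⟨𝔞, h𝔞, h1⟩ := hS3 ω hω
      exact Set.mem_biUnion h𝔞 h1

end Pool.Agent.Results.MP_aa40d3_nt.SpecialSubvarieties
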